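import Pool.Agent.V8H78.RC.Gen
import Pool.Agent.V8H86.GC.C

/-!
# Multiple Clausen values and alternating sums with moving indices (helper78)
-/

set_option autoImplicit false

namespace Pool.Agent.Y760.ZF.RC

open Filter Topology Pool.Agent.Y760.ZG Pool.Agent.V8H86.GC
open Pool.Agent.Y777.AM (ht)

/-- comparison with small numbers -/
lemma small_cmp {B δ : ℝ} (hB : 1 < B) (hδ : 0 < δ) : ∃ n1 : ℕ, 1 ≤ n1 ∧ ∀ n : ℕ, n1 ≤ n →
    ((n : ℝ) ^ (δ * n))⁻¹ ≤ ((2 * B) ^ n)⁻¹ := by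
  have h1 : Tendsto (fun n : ℕ => (n : ℝ) ^ δ) atTop atTop :=
    (tendsto_rpow_atTop hδ).comp tendsto_natCast_atTop_atTop
  obtain ⟨n1, hn1⟩ := (h1.eventually_ge_atTop (2 * B)).exists_forall_of_atTop
  refine ⟨max n1 1, le_max_right _ _, fun n hn => ?_⟩
  have h2 := hn1 n ((le_max_left _ _).trans hn)
  have h3 : (n : ℝ) ^ (δ * n) = ((n : ℝ) ^ δ) ^ n := by
    rw [Real.rpow_mul (Nat.cast_nonneg n), Real.rpow_natCast]
  rw [h3]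
  have h4 : (0 : ℝ) < 2 * B := by linarith
  exact inv_anti₀ (pow_pos h4 n) (pow_le_pow_left₀ h4.le h2 n)

lemma sub_bd {B X : ℝ} {Y : ℂ} {n : ℕ} (hB : 1 < B) (hn : 1 ≤ n) (hX : (B ^ n)⁻¹ < |X|)
    (hY : ‖Y‖ ≤ ((2 * B) ^ n)⁻¹) : ((2 * B) ^ n)⁻¹ < |X - Y.re| := by
  have h1 := (Complex.abs_re_le_norm Y).trans hY
  have h2 := abs_sub_abs_le_abs_sub X Y.re
  have hB0 : 0 < B := by linarith
  have h3 : 2 * ((2 * B) ^ n)⁻¹ ≤ (B ^ n)⁻¹ := by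
    rw [mul_pow, mul_inv, ← mul_assoc]
    refine mul_le_of_le_one_left (by positivity) ?_
    have h4 : (2 : ℝ) ≤ 2 ^ n := by
      calc (2 : ℝ) = 2 ^ 1 := (pow_one _).symm
        _ ≤ 2 ^ n := pow_le_pow_right₀ one_le_two hn
    rw [mul_inv_le_iff₀ (by positivity), one_mul]
    exact h4
  linarith

/-- **weights, modulo small numbers** -/
theorem mainH {l : ℕ} (β : Fin l → ℝ) (hβ : ∀ j, IsAlgebraic ℚ (β j))
    (hli : LinearIndependent ℚ β) {J : Type} [Fintype J] [DecidableEq J] (j0 : J)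
    {ψ : J → ℕ → ℝ} (V : Finset ℝ) (hV : ∀ v ∈ V, IsAlgebraic ℚ v) (hψV : ∀ j m, ψ j m ∈ V)
    (h : PI ψ) (N r : ℕ) (κ C ε : ℝ) (hε : 0 < ε) :
    ∃ B : ℝ, 1 < B ∧ ∃ n0 : ℕ, ∀ n : ℕ, n0 ≤ n → ∀ W : Finset (List ℕ), W.card ≤ N →
      (∀ w ∈ W, w ≠ [] ∧ w.length ≤ r ∧ Adm n κ w) → ∀ (a0 : Fin l → ℤ)
      (a : List ℕ → J → Fin l → ℤ),
      ((∃ j, a0 j ≠ 0) ∨ ∃ w ∈ W, ∃ e j, a w e j ≠ 0) → (∀ j, |(a0 j : ℝ)| ≤ C ^ n) →
      (∀ w ∈ W, ∀ e j, |(a w e j : ℝ)| ≤ C ^ n) →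
      ∀ H : Finset (List (ℕ × ℂ)), (∀ h ∈ H, Sm κ ε n h) →
      ∀ b : List (ℕ × ℂ) → ℂ, ∑ h ∈ H, ‖b h‖ ≤ C ^ n →
      (B ^ n)⁻¹ < |∑ j, β j * a0 j + ∑ w ∈ W, ∑ e, (∑ j, β j * a w e j) * mzT (ψ e) w -
        (∑ h ∈ H, b h * li h).re| := by
  obtain ⟨B, hB, n0, h0⟩ := mainG β hβ hli j0 V hV hψV h N r κ C
  obtain ⟨n1, h1⟩ := asyH' κ C (ε / 2) ε (by linarith) (by linarith)
  obtain ⟨n2, hn21, h2⟩ := small_cmp hB (half_pos hε)
  refine ⟨2 * B, by linarith, max n0 (max n1 n2), fun n hn W hWN hW a0 a ha hC0 hC H hH b hb => ?_⟩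
  have e0 := (le_max_left _ _).trans hn
  have e1 := ((le_max_left _ _).trans (le_max_right _ _)).trans hn
  have e2 := ((le_max_right _ _).trans (le_max_right _ _)).trans hn
  exact sub_bd hB (hn21.trans e2) (h0 n e0 W hWN hW a0 a ha hC0 hC)
    ((h1 n e1 H hH b hb).trans (h2 n e2))

/-! ### roots of unity of order six -/

/-- the weights of the real part of `Li_w(ω ^ u, 1, ..., 1)` and of the imaginary part of
`Li_w(ω ^ u', 1, ..., 1)` over `√3` -/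
noncomputable def ps (u u' : ℕ) (e : Fin 2) (m : ℕ) : ℝ :=
  if e = 0 then (p6 (u * m) : ℝ) / 2 else (q6 (u' * m) : ℝ) / 2

lemma ps_mem (u u' : ℕ) (e : Fin 2) (m : ℕ) :
    ps u u' e m ∈ ({-1, -(1 / 2), 0, 1 / 2, 1} : Finset ℝ) := by
  simp only [Finset.mem_insert, Finset.mem_singleton]
  unfold ps p6 q6
  split_ifs <;> norm_num

lemma mod_mul (u p c : ℕ) (hp : p % 6 = c % 6) : (u * p) % 6 = (u * c) % 6 := by
  rw [Nat.mul_mod, hp, ← Nat.mul_mod]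

lemma PI_ps {u u' : ℕ} (hu : u ≤ 3) (hu' : u' = 1 ∨ u' = 2) : PI (ps u u') := by
  intro c hc
  obtain ⟨P, hP⟩ := hc
  have key : ∀ (a : ℕ), Nat.Coprime a 6 → ∃ p, p % 6 = a % 6 ∧ ∑ j, c j * ps u u' j p = 0 := by
    intro a ha
    obtain ⟨p, hp1, hp2, hp3⟩ := Nat.forall_exists_prime_gt_and_modEq P (q := 6) (a := a)
      (by norm_num) ha
    exact ⟨p, hp3, hP p hp2 hp1.le⟩
  obtain ⟨p, hp, h1⟩ := key 1 (by norm_num)
  obtain ⟨p', hp', h2⟩ := key 5 (by norm_num)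
  rw [Fin.sum_univ_two] at h1 h2
  have e1 := mod_mul u p 1 hp
  have e2 := mod_mul u' p 1 hp
  have e3 := mod_mul u p' 5 hp'
  have e4 := mod_mul u' p' 5 hp'
  simp only [ps, if_true, if_neg (show ¬ (1 : Fin 2) = 0 by decide), p6, q6, e1, e2, e3, e4]
    at h1 h2
  have h3 : c 0 = 0 ∧ c 1 = 0 := by
    interval_cases u <;> rcases hu' with rfl | rfl <;> norm_num at h1 h2 <;>
      constructor <;> linarith
  funext j
  fin_cases j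
  · exact h3.1
  · exact h3.2

/-- the two parts -/
noncomputable def part2 (u u' : ℕ) (e : Fin 2) (w : List ℕ) : ℝ :=
  if e = 0 then (li (cz (om ^ u) w)).re else (li (cz (om ^ u') w)).im / Real.sqrt 3

lemma mzT_ws {ψ : ℕ → ℝ} {v : ℕ → ℤ} (h : ∀ m, ψ m = (v m : ℝ) / 2) (a : ℕ) (k : List ℕ) :
    mzT ψ (a :: k) = ws v a k / 2 := by
  rw [mzT, tl, ws, ← tsum_div_const]
  refine tsum_congr fun m => ?_
  rw [tmT, h]
  ring

lemma part2_eq (u u' : ℕ) (e : Fin 2) {w : List ℕ} (hw : w ≠ []) (h1 : ∀ m ∈ w, 1 ≤ m)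
    (h2 : ∀ m ∈ w.head?, 2 ≤ m) : part2 u u' e w = mzT (ps u u' e) w := by
  cases w with
  | nil => exact absurd rfl hw
  | cons a k =>
    have hk : ∀ x ∈ k, 1 ≤ x := fun x hx => h1 x (List.mem_cons_of_mem _ hx)
    have ha : 2 ≤ a := h2 a (by simp)
    unfold part2
    split_ifs with he
    · rw [cz_re u hk ha, mzT_ws (v := fun m => p6 (u * m)) (fun m => by rw [ps, if_pos he])]
    · rw [cz_im u' hk ha, mzT_ws (v := fun m => q6 (u' * m)) (fun m => by rw [ps, if_neg he])]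

/-- **multiple Clausen values and alternating sums** -/
theorem main6 {u u' : ℕ} (hu : u ≤ 3) (hu' : u' = 1 ∨ u' = 2) {l : ℕ} (β : Fin l → ℝ)
    (hβ : ∀ j, IsAlgebraic ℚ (β j)) (hli : LinearIndependent ℚ β) (N r : ℕ) (κ C ε : ℝ)
    (hε : 0 < ε) :
    ∃ B : ℝ, 1 < B ∧ ∃ n0 : ℕ, ∀ n : ℕ, n0 ≤ n → ∀ W : Finset (List ℕ), W.card ≤ N →
      (∀ w ∈ W, w ≠ [] ∧ w.length ≤ r ∧ Adm n κ w) → ∀ (a0 : Fin l → ℤ)
      (a : List ℕ → Fin 2 → Fin l → ℤ),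
      ((∃ j, a0 j ≠ 0) ∨ ∃ w ∈ W, ∃ e j, a w e j ≠ 0) → (∀ j, |(a0 j : ℝ)| ≤ C ^ n) →
      (∀ w ∈ W, ∀ e j, |(a w e j : ℝ)| ≤ C ^ n) →
      ∀ H : Finset (List (ℕ × ℂ)), (∀ h ∈ H, Sm κ ε n h) →
      ∀ b : List (ℕ × ℂ) → ℂ, ∑ h ∈ H, ‖b h‖ ≤ C ^ n →
      (B ^ n)⁻¹ < |∑ j, β j * a0 j + ∑ w ∈ W, ∑ e, (∑ j, β j * a w e j) * part2 u u' e w -
        (∑ h ∈ H, b h * li h).re| := by
  obtain ⟨B, hB, n0, h0⟩ := mainH β hβ hli (0 : Fin 2) (ψ := ps u u')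
    ({-1, -(1 / 2), 0, 1 / 2, 1} : Finset ℝ) (by
      intro v hv
      simp only [Finset.mem_insert, Finset.mem_singleton] at hv
      have h1 : ∃ q : ℚ, v = (q : ℝ) := by
        rcases hv with rfl | rfl | rfl | rfl | rfl
        · exact ⟨-1, by norm_num⟩
        · exact ⟨-(1 / 2), by norm_num⟩
        · exact ⟨0, by norm_num⟩
        · exact ⟨1 / 2, by norm_num⟩
        · exact ⟨1, by norm_num⟩
      obtain ⟨q, rfl⟩ := h1
      exact isAlgebraic_algebraMap q) (fun j m => ps_mem u u' j m) (PI_ps hu hu') N r κ C ε hε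
  refine ⟨B, hB, max n0 2, fun n hn W hWN hW a0 a ha hC0 hC H hH b hb => ?_⟩
  have h1 := h0 n ((le_max_left _ _).trans hn) W hWN hW a0 a ha hC0 hC H hH b hb
  have hn2 : 2 ≤ n := (le_max_right _ _).trans hn
  have h2 : ∑ w ∈ W, ∑ e, (∑ j, β j * (a w e j : ℝ)) * part2 u u' e w =
      ∑ w ∈ W, ∑ e, (∑ j, β j * (a w e j : ℝ)) * mzT (ps u u' e) w := by
    refine Finset.sum_congr rfl fun w hw => Finset.sum_congr rfl fun e _ => ?_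
    rw [part2_eq u u' e (hW w hw).1 (fun m hm => ((hW w hw).2.2.1 m hm).1)
      (fun m hm => hn2.trans ((hW w hw).2.2.2 m hm))]
  rw [h2]
  exact h1

end Pool.Agent.Y760.ZF.RC
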