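import Pool.Agent.V8H78.RC.IndT
import Pool.Agent.Y760.ZF.FinV

/-!
# Weighted multiple series with large first argument: relations of all exponential heights
(helper78, after helper760)
-/

set_option autoImplicit false
set_option linter.unusedSectionVars false

namespace Pool.Agent.Y760.ZF.RC

open Filter Topology Pool.Agent.TH932.Abs Pool.Agent.TH932.Germs Pool.Agent.TH932.Chi
open Pool.Agent.TH796.AL Pool.Agent.TH883.Zg Pool.Agent.Y760.ZG

/-- the word of an index -/
def wdT {g : ℕ} {J : Type} {Λ : Finset (List (Fin g))} : Option (Λ × J) → List (Fin g)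
  | none => []
  | some p => p.1.1

/-- the weight of an index -/
def jdT {g : ℕ} {J : Type} (j0 : J) {Λ : Finset (List (Fin g))} : Option (Λ × J) → J
  | none => j0
  | some p => p.2

/-- **patterns** -/
theorem mainPT {l g : ℕ} (β : Fin l → ℝ) (hβ : ∀ j, IsAlgebraic ℚ (β j))
    (hli : LinearIndependent ℚ β) {J S : Type} [Fintype J] [DecidableEq J] [Fintype S]
    {ψ : J → ℕ → ℝ} (V : Finset ℝ) (hV : ∀ v ∈ V, IsAlgebraic ℚ v) (hψV : ∀ j m, ψ j m ∈ V)
    {vS : S → J → ℝ} {d : J → S → ℝ}
    (hd1 : ∀ j j', ∑ σ, d j σ * vS σ j' = if j' = j then 1 else 0)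
    (hpr : ∀ σ q0, ∃ q, q0 ≤ q ∧ ∀ j, ψ j (pr q) = vS σ j) (j0 : J)
    (Λ : Finset (List (Fin g))) (hΛ0 : ∀ w ∈ Λ, w ≠ []) (κ C : ℝ) :
    ∃ B : ℝ, 1 < B ∧ ∃ n0 : ℕ, ∀ n : ℕ, n0 ≤ n → ∀ s : Fin g → ℕ, Function.Injective s →
      (∀ i, 1 ≤ s i ∧ (s i : ℝ) ≤ κ * n) → ∀ a : Option (Λ × J) → Fin l → ℤ, a ≠ 0 →
      (∀ p j, a p j ≠ 0 → Hd n s (wdT p)) → (∀ p j, |(a p j : ℝ)| ≤ C ^ n) →
      (B ^ n)⁻¹ < |∑ p : Option (Λ × J), ∑ j, (β j * a p j) *
        mzT (ψ (jdT j0 p)) ((wdT p).map s)| := by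
  classical
  by_contra hcon
  push Not at hcon
  have h1 : ∀ t : ℕ, ∃ n : ℕ, t ≤ n ∧ ∃ s : Fin g → ℕ, Function.Injective s ∧
      (∀ i, 1 ≤ s i ∧ (s i : ℝ) ≤ κ * n) ∧ ∃ a : Option (Λ × J) → Fin l → ℤ, a ≠ 0 ∧
      (∀ p j, a p j ≠ 0 → Hd n s (wdT p)) ∧ (∀ p j, |(a p j : ℝ)| ≤ C ^ n) ∧
      |∑ p : Option (Λ × J), ∑ j, (β j * a p j) * mzT (ψ (jdT j0 p)) ((wdT p).map s)| ≤
        (((t : ℝ) + 2) ^ n)⁻¹ :=
    fun t => hcon ((t : ℝ) + 2) (by
      have : (0 : ℝ) ≤ t := Nat.cast_nonneg t
      linarith only [this]) t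
  choose n hn s hinj hs a0 ha0 hhd hC hsmall using h1
  obtain ⟨x', hx', hlim'⟩ := exists_lim0 hn fun t i => (hs t i).2
  -- the scale
  obtain ⟨μ, hμ0, hμ1, hμx⟩ : ∃ μ : ℝ, 0 < μ ∧ μ ≤ 1 ∧ ∀ i, 0 < x' i → 2 * μ ≤ x' i := by
    set T : Finset ℝ := insert 2 ((Finset.univ.filter fun i => 0 < x' i).image x') with hT
    have hTne : T.Nonempty := ⟨2, Finset.mem_insert_self _ _⟩
    have hpos : ∀ z ∈ T, 0 < z := by
      intro z hz
      rw [hT, Finset.mem_insert, Finset.mem_image] at hz
      rcases hz with rfl | ⟨i, hi, rfl⟩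
      · norm_num
      · exact (Finset.mem_filter.1 hi).2
    have h2 := hpos _ (T.min'_mem hTne)
    have h3 := T.min'_le 2 (Finset.mem_insert_self _ _)
    refine ⟨T.min' hTne / 2, by linarith only [h2], by linarith only [h3], fun i hi => ?_⟩
    have h4 := T.min'_le (x' i) (Finset.mem_insert_of_mem
      (Finset.mem_image_of_mem _ (Finset.mem_filter.2 ⟨Finset.mem_univ _, hi⟩)))
    linarith only [h4]
  set L : ℕ → ℝ := fun t => μ * (n t : ℝ) with hLdef
  have hL : Tendsto L atTop atTop :=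
    (tendsto_natCast_atTop_atTop.comp (tendsto_atTop_mono hn tendsto_id)).const_mul_atTop hμ0
  set x : Fin g → ℝ := fun i => x' i / μ with hxdef
  have hlim : Lim s x L := by
    intro i ε hε
    filter_upwards [hlim' i (ε * μ) (mul_pos hε hμ0)] with t ht
    rw [hxdef, hLdef]
    simp only
    have h2 : x' i / μ * (μ * (n t : ℝ)) = x' i * n t := by
      field_simp
    rw [h2]
    refine ht.trans (le_of_eq ?_)
    ring
  have hx : ∀ i, x i = 0 ∨ 1 ≤ x i := by
    intro i
    rcases (hx' i).eq_or_lt with h | h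
    · left
      rw [hxdef]
      simp only
      rw [← h, zero_div]
    · right
      rw [hxdef]
      simp only
      rw [le_div_iff₀ hμ0, one_mul]
      have := hμx i h
      linarith only [this, hμ0]
  set B : Fin g → Bool := fun i => decide (1 ≤ x i) with hBdef
  have hB : ∀ i, B i = true ↔ 1 ≤ x i := fun i => by
    rw [hBdef]
    simp only [decide_eq_true_eq]
  have hB' : ∀ i, B i = false → x' i = 0 := by
    intro i hi
    rcases hx i with h | h
    · rw [hxdef] at h
      simp only at h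
      rcases div_eq_zero_iff.1 h with h | h
      · exact h
      · exact absurd h hμ0.ne'
    · rw [(hB i).2 h] at hi
      exact absurd hi (by decide)
  have hLs : ∀ᶠ t in (UU : Filter ℕ), ∀ i, B i = true → L t ≤ (s t i : ℝ) := by
    rw [Filter.eventually_all]
    intro i
    by_cases hi : B i = true
    · filter_upwards [hlim' i μ hμ0] with t ht _
      have h2 : 2 * μ ≤ x' i := by
        rcases (hx' i).eq_or_lt with h | h
        · exfalso
          have h3 := (hB i).1 hi
          rw [hxdef] at h3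
          simp only at h3
          rw [← h, zero_div] at h3
          linarith only [h3]
        · exact hμx i h
      have h3 := (abs_le.1 ht).1
      have h4 : (0 : ℝ) ≤ n t := Nat.cast_nonneg _
      show μ * (n t : ℝ) ≤ s t i
      nlinarith only [h2, h3, h4]
    · exact Eventually.of_forall fun t h => absurd h hi
  have hs1 : ∀ t i, 1 ≤ s t i := fun t i => (hs t i).1
  -- the number field
  set Gs : Set ℝ := Set.range β ∪ (V : Set ℝ) with hGs
  set F : IntermediateField ℚ ℝ := IntermediateField.adjoin ℚ Gs with hFdef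
  have hfin : Finite Gs := ((Set.finite_range β).union V.finite_toSet).to_subtype
  have hF : FiniteDimensional ℚ F :=
    IntermediateField.finiteDimensional_adjoin fun x hx => by
      rcases hx with ⟨j, rfl⟩ | hx
      · exact (hβ j).isIntegral
      · exact (hV x hx).isIntegral
  have hβF : ∀ j, β j ∈ F := fun j => IntermediateField.subset_adjoin ℚ _ (Or.inl ⟨j, rfl⟩)
  have hψF : ∀ j m, ψ j m ∈ F := fun j m =>
    IntermediateField.subset_adjoin ℚ _ (Or.inr (hψV j m))
  have hβS : ∀ j, algebraMap ℝ HR (β j) ∈ SF hL F := fun j =>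
    SF_of_NQ (q := 0) (m := 0) (NQ.coe ⟨_, cst_mem_KA hL F ⟨β j, hβF j⟩⟩)
  have hΨ : ∀ j m, 1 ≤ m → |ψ j m| ≤ (∑ v ∈ V, |v|) * (m : ℝ) ^ 0 := by
    intro j m _
    rw [pow_zero, mul_one]
    exact Finset.single_le_sum (f := fun v : ℝ => |v|) (fun v _ => abs_nonneg v) (hψV j m)
  -- the words whose first letter is large
  set Λ' : Type := {p : Option (Λ × J) // Lg B (wdT p)} with hΛ'
  have hout : ∀ᶠ t in (UU : Filter ℕ), ∀ p : Option (Λ × J), ¬ Lg B (wdT p) →
      ∀ j, a0 t p j = 0 := by
    rw [Filter.eventually_all]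
    intro p
    by_cases hw : Lg B (wdT p)
    · exact Eventually.of_forall fun t h => absurd hw h
    · obtain ⟨i, u, hiu⟩ : ∃ i u, wdT p = i :: u := by
        cases h : wdT p with
        | nil =>
          exact absurd (Or.inl h) hw
        | cons i u => exact ⟨i, u, rfl⟩
      have hi : B i = false := by
        cases h : B i with
        | true => exact absurd (Or.inr ⟨i, u, hiu, h⟩) hw
        | false => rfl
      filter_upwards [hlim' i (1 / 2) (by norm_num), ev_of_atTop (eventually_ge_atTop 1)]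
        with t ht ht1 _ j
      by_contra hne
      have h2 := hhd t p j hne
      unfold Hd at h2
      have h3 := h2 i (by rw [hiu]; simp)
      rw [hB' i hi, zero_mul, sub_zero] at ht
      have h4 := (le_abs_self _).trans ht
      have h5 : (n t : ℝ) ≤ s t i := by exact_mod_cast h3
      have h6 := hn t
      have h7 : (1 : ℝ) ≤ n t := by exact_mod_cast (by omega : 1 ≤ n t)
      linarith only [h4, h5, h7]
  set y : Λ' × Fin l → HR := fun p => algebraMap ℝ HR (β p.2) *
    XgT s (ψ (jdT j0 p.1.1)) (wdT p.1.1) with hy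
  set a : Λ' × Fin l → GG := fun p => gm fun t => (a0 t p.1.1 p.2 : ℚ) with ha
  have hIG : ∀ p, IG L (Real.log (|C| + 1) / μ) (a p) := by
    intro p
    refine ⟨fun t => a0 t p.1.1 p.2, rfl, Eventually.of_forall fun t => ?_⟩
    refine (hC t p.1.1 p.2).trans ?_
    have h2 : 0 ≤ |C| := abs_nonneg C
    have h3 : Real.log (|C| + 1) / μ * L t = (n t : ℝ) * Real.log (|C| + 1) := by
      rw [hLdef]
      field_simp
    rw [h3, Real.exp_nat_mul, Real.exp_log (by linarith only [h2])]
    refine (le_abs_self _).trans ?_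
    rw [abs_pow]
    exact pow_le_pow_left₀ h2 (by linarith only []) _
  have hnul : Nul L (∑ p, rho (a p) * y p) := by
    have e1 : ∑ p, rho (a p) * y p = gr fun t =>
        ∑ p : Option (Λ × J), ∑ j, (β j * a0 t p j) *
          mzT (ψ (jdT j0 p)) ((wdT p).map (s t)) := by
      have e2 : ∀ p, rho (a p) * y p = gr fun t =>
          (β p.2 * a0 t p.1.1 p.2) * mzT (ψ (jdT j0 p.1.1)) ((wdT p.1.1).map (s t)) := by
        intro p
        rw [ha, hy]
        simp only
        unfold XgT
        rw [rho_gm, cst_eq, gr_mul, gr_mul]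
        congr 1
        funext t
        unfold aw
        push_cast
        ring
      rw [Finset.sum_congr rfl fun p _ => e2 p, gr_sum, gr_eq]
      filter_upwards [hout] with t ht
      rw [Fintype.sum_prod_type]
      show ∑ w : {p : Option (Λ × J) // Lg B (wdT p)}, ∑ j, (β j * a0 t w.1 j) *
        mzT (ψ (jdT j0 w.1)) ((wdT w.1).map (s t)) = _
      rw [← Finset.sum_filter_add_sum_filter_not Finset.univ
          (fun p : Option (Λ × J) => Lg B (wdT p)),
        Finset.sum_eq_zero (s := Finset.univ.filter fun p : Option (Λ × J) => ¬ Lg B (wdT p))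
          (fun w hw => Finset.sum_eq_zero fun j _ => by
            rw [ht w (Finset.mem_filter.1 hw).2 j, Int.cast_zero, mul_zero, zero_mul]), add_zero]
      exact (Finset.sum_subtype (Finset.univ.filter fun p : Option (Λ × J) => Lg B (wdT p))
        (fun w => by
          rw [Finset.mem_filter]
          exact ⟨fun h => h.2, fun h => ⟨Finset.mem_univ _, h⟩⟩)
        (fun w => ∑ j, (β j * a0 t w j) * mzT (ψ (jdT j0 w)) ((wdT w).map (s t)))).symm
    rw [e1]
    intro T
    rw [mem_SR]
    intro ε hε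
    have h2 : ∀ᶠ t : ℕ in (UU : Filter ℕ), Real.exp |T| ≤ (t : ℝ) :=
      ev_of_atTop (tendsto_natCast_atTop_atTop.eventually_ge_atTop _)
    filter_upwards [h2] with t h3
    refine (hsmall t).trans ?_
    have hn0 : (0 : ℝ) ≤ n t := Nat.cast_nonneg _
    have h6 : Real.exp (|T| * (n t : ℝ)) ≤ ((t : ℝ) + 2) ^ (n t) := by
      rw [mul_comm, Real.exp_nat_mul]
      exact pow_le_pow_left₀ (Real.exp_pos _).le (by linarith only [h3]) _
    calc (((t : ℝ) + 2) ^ (n t))⁻¹ ≤ (Real.exp (|T| * (n t : ℝ)))⁻¹ :=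
          inv_anti₀ (Real.exp_pos _) h6
      _ = Real.exp (-(|T| * (n t : ℝ))) := (Real.exp_neg _).symm
      _ ≤ Real.exp (-(T - ε) * L t) := by
          apply Real.exp_le_exp.2
          rw [hLdef]
          simp only
          have h7 : T * (μ * (n t : ℝ)) ≤ |T| * (n t : ℝ) := by
            have h8 := le_abs_self T
            have h9 := abs_nonneg T
            have h10 : T * (μ * (n t : ℝ)) ≤ |T| * (μ * (n t : ℝ)) :=
              mul_le_mul_of_nonneg_right h8 (by positivity)
            have h11 : μ * (n t : ℝ) ≤ n t := mul_le_of_le_one_left hn0 hμ1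
            exact h10.trans (mul_le_mul_of_nonneg_left h11 h9)
          have h8 : 0 ≤ ε * (μ * (n t : ℝ)) := by positivity
          linarith only [h7, h8]
  have hmain := gen hF (Fintype.card (Λ' × Fin l)) (Λ' × Fin l) rfl y
    (fun p => (DD.of_SF (hβS p.2)).mul (DD_XgT hL hLs (hΨ _) (hψF _) hlim p.1.2)) ?_ _ a hIG hnul
  · have h2 : ∀ᶠ t in (UU : Filter ℕ), ∀ p : Λ' × Fin l, (a0 t p.1.1 p.2 : ℚ) = 0 := by
      rw [Filter.eventually_all]
      intro p
      have h3 := hmain p
      simp only [ha] at h3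
      rw [← gm_zero, gm_eq] at h3
      exact h3
    obtain ⟨t, ht, ht'⟩ := (h2.and hout).exists
    apply ha0 t
    funext w j
    by_cases hw : Lg B (wdT w)
    · exact_mod_cast ht (⟨w, hw⟩, j)
    · exact ht' w hw j
  · intro p hp hpn
    have h2 : Nul L (∑ w : Λ', (∑ j, algebraMap ℝ HR (β j) * rho (p (w, j))) *
        XgT s (ψ (jdT j0 w.1)) (wdT w.1)) := by
      have e1 : ∑ q, rho (p q) * y q =
          ∑ w : Λ', (∑ j, algebraMap ℝ HR (β j) * rho (p (w, j))) *
            XgT s (ψ (jdT j0 w.1)) (wdT w.1) := by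
        rw [Fintype.sum_prod_type]
        refine Finset.sum_congr rfl fun e _ => ?_
        rw [Finset.sum_mul]
        refine Finset.sum_congr rfl fun j _ => ?_
        simp only [hy]
        ring
      rw [← e1]
      exact hpn
    have h3 := indT hF hlim hx hB hs1 hLs hinj hψF hΨ hd1 hpr (fun w : Λ' => wdT w.1)
      (fun w => jdT j0 w.1)
      (fun w w' h h' => by
        obtain ⟨w, hw⟩ := w
        obtain ⟨w', hw'⟩ := w'
        apply Subtype.ext
        simp only at h h'
        cases w with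
        | none =>
          cases w' with
          | none => rfl
          | some p' => exact absurd h.symm (hΛ0 _ p'.1.2)
        | some p =>
          cases w' with
          | none => exact absurd h (hΛ0 _ p.1.2)
          | some p' =>
            have h4 : p.1 = p'.1 := Subtype.ext h
            have h5 : p.2 = p'.2 := h'.resolve_left (hΛ0 _ p.1.2)
            simp only [Option.some.injEq]
            exact Prod.ext h4 h5) (fun w => w.2)
      (fun w => ∑ j, algebraMap ℝ HR (β j) * rho (p (w, j))) (fun w =>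
        (SF hL F).sum_mem fun j _ => (SF hL F).mul_mem (hβS j) (hp _)) h2
    rintro ⟨w, j⟩
    exact disj_thm (Fin l) inferInstance β hli (fun j => p (w, j)) (h3 w) j

/-- **bounded numbers of weighted multiple series** -/
theorem mainWT {l : ℕ} (β : Fin l → ℝ) (hβ : ∀ j, IsAlgebraic ℚ (β j))
    (hli : LinearIndependent ℚ β) {J S : Type} [Fintype J] [DecidableEq J] [Fintype S]
    {ψ : J → ℕ → ℝ} (V : Finset ℝ) (hV : ∀ v ∈ V, IsAlgebraic ℚ v) (hψV : ∀ j m, ψ j m ∈ V)
    {vS : S → J → ℝ} {d : J → S → ℝ}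
    (hd1 : ∀ j j', ∑ σ, d j σ * vS σ j' = if j' = j then 1 else 0)
    (hpr : ∀ σ q0, ∃ q, q0 ≤ q ∧ ∀ j, ψ j (pr q) = vS σ j) (j0 : J)
    (N r : ℕ) (κ C : ℝ) :
    ∃ B : ℝ, 1 < B ∧ ∃ n0 : ℕ, ∀ n : ℕ, n0 ≤ n → ∀ W : Finset (List ℕ), W.card ≤ N →
      (∀ w ∈ W, w ≠ [] ∧ w.length ≤ r ∧ Adm n κ w) → ∀ (a0 : Fin l → ℤ)
      (a : List ℕ → J → Fin l → ℤ),
      ((∃ j, a0 j ≠ 0) ∨ ∃ w ∈ W, ∃ e j, a w e j ≠ 0) → (∀ j, |(a0 j : ℝ)| ≤ C ^ n) →
      (∀ w ∈ W, ∀ e j, |(a w e j : ℝ)| ≤ C ^ n) →
      (B ^ n)⁻¹ < |∑ j, β j * a0 j + ∑ w ∈ W, ∑ e, (∑ j, β j * a w e j) * mzT (ψ e) w| := by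
  classical
  choose Λ0 hΛ0 using fun g => exists_words r g
  set Λ : ∀ g, Finset (List (Fin g)) := fun g => (Λ0 g).filter fun w => w ≠ [] with hΛdef
  have hΛ : ∀ g w, w ∈ Λ g ↔ w.length ≤ r ∧ w ≠ [] := by
    intro g w
    rw [hΛdef]
    simp only [Finset.mem_filter]
    rw [hΛ0]
  choose B hB n0 hmain using fun g => mainPT (g := g) β hβ hli V hV hψV hd1 hpr j0 (Λ g)
    (fun w hw => ((hΛ g w).1 hw).2) κ C
  refine ⟨∑ g ∈ Finset.range (N * r + 1), B g, ?_, 
    ∑ g ∈ Finset.range (N * r + 1), n0 g, ?_⟩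
  · refine (hB 0).trans_le ?_
    exact Finset.single_le_sum (f := B) (fun g _ => by linarith only [hB g])
      (Finset.mem_range.2 (by omega))
  intro n hn W hWN hW a0 a ha hC0 hC
  set LL : Finset ℕ := W.biUnion fun w => w.toFinset with hLL
  have hcard : LL.card ≤ N * r := by
    calc LL.card ≤ ∑ w ∈ W, w.toFinset.card := Finset.card_biUnion_le
      _ ≤ ∑ _w ∈ W, r := Finset.sum_le_sum fun w hw =>
          (List.toFinset_card_le w).trans (hW w hw).2.1
      _ = W.card * r := by rw [Finset.sum_const, smul_eq_mul]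
      _ ≤ N * r := Nat.mul_le_mul_right _ hWN
  set g : ℕ := LL.card with hg
  set s : Fin g ↪o ℕ := LL.orderEmbOfFin rfl with hs
  have hsLL : ∀ i, s i ∈ LL := fun i => LL.orderEmbOfFin_mem rfl i
  have hsurj : ∀ m ∈ LL, ∃ i, s i = m := by
    intro m hm
    have h1 := LL.range_orderEmbOfFin rfl
    have h2 : m ∈ Set.range (LL.orderEmbOfFin rfl) := by
      rw [h1]
      exact hm
    exact h2
  have hgr : g ∈ Finset.range (N * r + 1) := Finset.mem_range.2 (by omega)
  have hn0 : n0 g ≤ n := by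
    have h1 : n0 g ≤ ∑ g ∈ Finset.range (N * r + 1), n0 g :=
      Finset.single_le_sum (f := n0) (fun _ _ => Nat.zero_le _) hgr
    omega
  have hmem : ∀ w ∈ W, ∀ m ∈ w, m ∈ LL := by
    intro w hw m hm
    rw [hLL, Finset.mem_biUnion]
    exact ⟨w, hw, List.mem_toFinset.2 hm⟩
  -- coding
  have hcode : ∀ w : List ℕ, w ∈ W → ∃ w' : List (Fin g), w'.map s = w := by
    intro w hw
    refine ⟨w.attach.map fun m => (hsurj m.1 (hmem w hw m.1 m.2)).choose, ?_⟩
    rw [List.map_map]
    conv_rhs => rw [← List.attach_map_subtype_val w]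
    refine List.map_congr_left fun m _ => ?_
    exact (hsurj m.1 (hmem w hw m.1 m.2)).choose_spec
  choose! enc henc using hcode
  have hencΛ : ∀ w ∈ W, enc w ∈ Λ g := by
    intro w hw
    rw [hΛ]
    have h1 := congrArg List.length (henc w hw)
    rw [List.length_map] at h1
    rw [h1]
    refine ⟨(hW w hw).2.1, fun h2 => (hW w hw).1 ?_⟩
    rw [← henc w hw, h2, List.map_nil]
  have hinjm : Function.Injective (List.map s) := List.map_injective_iff.2 s.injective
  set a' : Option (Λ g × J) → Fin l → ℤ := fun p j => match p with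
    | none => a0 j
    | some q => if q.1.1.map s ∈ W then a (q.1.1.map s) q.2 j else 0 with ha'
  have ha'0 : ∀ j, a' none j = a0 j := fun j => rfl
  have ha's : ∀ (q : Λ g × J) j, a' (some q) j =
      if q.1.1.map s ∈ W then a (q.1.1.map s) q.2 j else 0 := fun q j => rfl
  have ha'W : ∀ w (hw : w ∈ W) e j, a' (some (⟨enc w, hencΛ w hw⟩, e)) j = a w e j := by
    intro w hw e j
    rw [ha's]
    simp only
    rw [henc w hw, if_pos hw]
  have hCn : 0 ≤ C ^ n := by
    rcases ha with ⟨j, _⟩ | ⟨w, hw, e, j, _⟩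
    · exact (abs_nonneg _).trans (hC0 j)
    · exact (abs_nonneg _).trans (hC w hw e j)
  have h1 := hmain g n hn0 s s.injective (fun i => by
      have h2 := hsLL i
      rw [hLL, Finset.mem_biUnion] at h2
      obtain ⟨w, hw, h3⟩ := h2
      exact (hW w hw).2.2.1 _ (List.mem_toFinset.1 h3)) a' (by
      intro h2
      rcases ha with ⟨j, hj⟩ | ⟨w, hw, e, j, hj⟩
      · apply hj
        rw [← ha'0 j, h2]
        rfl
      · apply hj
        rw [← ha'W w hw e j, h2]
        rfl) (fun p j hne => by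
      cases p with
      | none =>
        intro i hi
        exact absurd hi (by simp [wdT])
      | some q =>
        rw [ha's] at hne
        split_ifs at hne with h2
        · intro i hi
          have h3 := (hW _ h2).2.2.2 (s i) (by
            rw [List.head?_map]
            exact Option.mem_map_of_mem s hi)
          exact h3
        · exact absurd rfl hne) (fun p j => by
      cases p with
      | none => exact hC0 j
      | some q =>
        rw [ha's]
        split_ifs with h2
        · exact hC _ h2 _ j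
        · rw [Int.cast_zero, abs_zero]
          exact hCn)
  have h2 : ∑ p : Option (Λ g × J), ∑ j, (β j * a' p j) * mzT (ψ (jdT j0 p)) ((wdT p).map s) =
      ∑ j, β j * a0 j + ∑ w ∈ W, ∑ e, (∑ j, β j * a w e j) * mzT (ψ e) w := by
    rw [Fintype.sum_option]
    have e0 : ∑ j, (β j * (a' none j : ℝ)) * mzT (ψ (jdT (Λ := Λ g) j0 none))
        ((wdT (Λ := Λ g) (J := J) none).map s) = ∑ j, β j * a0 j := by
      refine Finset.sum_congr rfl fun j _ => ?_
      rw [ha'0]
      show _ * mzT _ [] = _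
      rw [mzT, mul_one]
    rw [e0]
    congr 1
    rw [Fintype.sum_prod_type]
    have h3 : ∀ w' : Λ g, ¬ w'.1.map s ∈ W →
        ∑ e : J, ∑ j, (β j * a' (some (w', e)) j) * mzT (ψ (jdT j0 (some (w', e))))
          ((wdT (some (w', e))).map s) = 0 := by
      intro w' hw'
      refine Finset.sum_eq_zero fun e _ => Finset.sum_eq_zero fun j _ => ?_
      rw [ha's]
      simp only
      rw [if_neg hw', Int.cast_zero, mul_zero, zero_mul]
    rw [← Finset.sum_filter_add_sum_filter_not Finset.univ (fun w' : Λ g => w'.1.map s ∈ W),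
      Finset.sum_eq_zero (s := Finset.univ.filter fun w' : Λ g => ¬ w'.1.map s ∈ W)
        (fun w' hw' => h3 w' (Finset.mem_filter.1 hw').2), add_zero]
    refine Finset.sum_bij' (fun w' _ => w'.1.map s)
      (fun w hw => (⟨enc w, hencΛ w hw⟩ : Λ g)) ?_ ?_ ?_ ?_ ?_
    · intro w' hw'
      exact (Finset.mem_filter.1 hw').2
    · intro w hw
      rw [Finset.mem_filter]
      refine ⟨Finset.mem_univ _, ?_⟩
      simp only
      rw [henc w hw]
      exact hw
    · intro w' hw'
      refine Subtype.ext (hinjm ?_)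
      exact henc _ (Finset.mem_filter.1 hw').2
    · intro w hw
      exact henc w hw
    · intro w' hw'
      refine Finset.sum_congr rfl fun e _ => ?_
      rw [Finset.sum_mul]
      refine Finset.sum_congr rfl fun j _ => ?_
      rw [ha's]
      simp only
      rw [if_pos (Finset.mem_filter.1 hw').2]
      rfl
  rw [h2] at h1
  refine lt_of_le_of_lt ?_ h1
  have hBg : B g ≤ ∑ g ∈ Finset.range (N * r + 1), B g :=
    Finset.single_le_sum (f := B) (fun g _ => by linarith only [hB g]) hgr
  have hBg0 : 0 < B g := by linarith only [hB g]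
  gcongr

end Pool.Agent.Y760.ZF.RC
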