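import Pool.Agent.V8H78.RC.FinT

/-!
# Weights that are independent on the primes (helper78)
-/

set_option autoImplicit false

namespace Pool.Agent.Y760.ZF.RC

open Filter Topology Pool.Agent.Y760.ZG

/-- no nontrivial real combination of the functions vanishes at all large primes -/
def PI {J : Type} [Fintype J] (ψ : J → ℕ → ℝ) : Prop :=
  ∀ c : J → ℝ, (∃ P : ℕ, ∀ p : ℕ, p.Prime → P ≤ p → ∑ j, c j * ψ j p = 0) → c = 0

lemma exists_index {p : ℕ} (hp : p.Prime) {q0 : ℕ} (h : pr q0 ≤ p) : ∃ q, q0 ≤ q ∧ pr q = p := by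
  refine ⟨Nat.count Nat.Prime p, ?_, Nat.nth_count hp⟩
  by_contra hlt
  push Not at hlt
  have h1 : pr (Nat.count Nat.Prime p) < pr q0 := pr_lt hlt
  have h2 : pr (Nat.count Nat.Prime p) = p := Nat.nth_count hp
  omega

theorem vec {J : Type} [Fintype J] [DecidableEq J] {ψ : J → ℕ → ℝ} (V : Finset ℝ)
    (hψV : ∀ j m, ψ j m ∈ V) (h : PI ψ) :
    ∃ (S : Type) (_ : Fintype S) (vS : S → J → ℝ) (d : J → S → ℝ),
      (∀ j j', ∑ σ, d j σ * vS σ j' = if j' = j then 1 else 0) ∧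
      ∀ σ q0, ∃ q, q0 ≤ q ∧ ∀ j, ψ j (pr q) = vS σ j := by
  classical
  set VV : Finset (J → ℝ) := Fintype.piFinset fun _ => V with hVV
  set S0 : Finset (J → ℝ) := VV.filter fun v => ∀ q0, ∃ q, q0 ≤ q ∧ ∀ j, ψ j (pr q) = v j with hS0
  set A : (J → ℝ) →ₗ[ℝ] (S0 → ℝ) :=
    Matrix.mulVecLin (Matrix.of fun (σ : S0) (j : J) => σ.1 j) with hA
  have hAe : ∀ c σ, A c σ = ∑ j, σ.1 j * c j := by
    intro c σ
    rw [hA]
    rfl
  have hker : LinearMap.ker A = ⊥ := by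
    rw [LinearMap.ker_eq_bot']
    intro c hc
    apply h
    have h1 : ∀ v : J → ℝ, ∃ q0, v ∈ VV → v ∉ S0 → ∀ q, q0 ≤ q → ∃ j, ψ j (pr q) ≠ v j := by
      intro v
      by_cases hv : v ∈ VV ∧ v ∉ S0
      · have h2 := hv.2
        rw [hS0, Finset.mem_filter] at h2
        push Not at h2
        obtain ⟨q0, hq0⟩ := h2 hv.1
        exact ⟨q0, fun _ _ => hq0⟩
      · exact ⟨0, fun h3 h4 => absurd ⟨h3, h4⟩ hv⟩
    choose q0 hq0 using h1
    refine ⟨pr (∑ v ∈ VV, q0 v), fun p hp hPp => ?_⟩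
    obtain ⟨q, hq, hqp⟩ := exists_index hp hPp
    set v : J → ℝ := fun j => ψ j p with hv
    have hvV : v ∈ VV := by
      rw [hVV, Fintype.mem_piFinset]
      exact fun j => hψV j p
    by_cases hvS : v ∈ S0
    · have h2 := congrFun hc ⟨v, hvS⟩
      rw [hAe] at h2
      refine Eq.trans (Finset.sum_congr rfl fun j _ => ?_) h2
      exact mul_comm _ _
    · exfalso
      have h3 : q0 v ≤ q := (Finset.single_le_sum (f := q0) (fun _ _ => Nat.zero_le _) hvV).trans hq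
      obtain ⟨j, hj⟩ := hq0 v hvV hvS q h3
      apply hj
      rw [hqp]
  obtain ⟨g, hg⟩ := A.exists_leftInverse_of_injective hker
  refine ⟨S0, inferInstance, fun σ j => σ.1 j, fun j σ => g (Pi.single σ 1) j, fun j j' => ?_,
    fun σ q0 => ?_⟩
  · have h1 : g (A (Pi.single j' 1)) = Pi.single j' 1 := by
      have h2 := LinearMap.congr_fun hg (Pi.single j' 1)
      exact h2
    have h2 : A (Pi.single j' 1) = ∑ σ : S0, (σ.1 j') • (Pi.single σ 1 : S0 → ℝ) := by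
      funext σ
      rw [hAe, Finset.sum_apply, Finset.sum_eq_single j', Finset.sum_eq_single σ]
      · simp
      · intro τ _ hτ
        simp [Ne.symm hτ]
      · intro h3
        exact absurd (Finset.mem_univ _) h3
      · intro i _ hi
        simp [hi]
      · intro h3
        exact absurd (Finset.mem_univ _) h3
    rw [h2, map_sum] at h1
    have h3 := congrFun h1 j
    rw [Finset.sum_apply] at h3
    simp only [map_smul, Pi.smul_apply, smul_eq_mul] at h3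
    rw [Pi.single_apply] at h3
    rw [← (show (if j = j' then (1 : ℝ) else 0) = if j' = j then 1 else 0 by
      simp only [eq_comm]), ← h3]
    exact Finset.sum_congr rfl fun σ _ => mul_comm _ _
  · have h1 : σ.1 ∈ VV.filter fun v => ∀ q0, ∃ q, q0 ≤ q ∧ ∀ j, ψ j (pr q) = v j := σ.2
    rw [Finset.mem_filter] at h1
    exact h1.2 q0

/-- **bounded numbers of weighted multiple series** -/
theorem mainG {l : ℕ} (β : Fin l → ℝ) (hβ : ∀ j, IsAlgebraic ℚ (β j))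
    (hli : LinearIndependent ℚ β) {J : Type} [Fintype J] [DecidableEq J] (j0 : J)
    {ψ : J → ℕ → ℝ} (V : Finset ℝ) (hV : ∀ v ∈ V, IsAlgebraic ℚ v) (hψV : ∀ j m, ψ j m ∈ V)
    (h : PI ψ) (N r : ℕ) (κ C : ℝ) :
    ∃ B : ℝ, 1 < B ∧ ∃ n0 : ℕ, ∀ n : ℕ, n0 ≤ n → ∀ W : Finset (List ℕ), W.card ≤ N →
      (∀ w ∈ W, w ≠ [] ∧ w.length ≤ r ∧ Adm n κ w) → ∀ (a0 : Fin l → ℤ)
      (a : List ℕ → J → Fin l → ℤ),
      ((∃ j, a0 j ≠ 0) ∨ ∃ w ∈ W, ∃ e j, a w e j ≠ 0) → (∀ j, |(a0 j : ℝ)| ≤ C ^ n) →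
      (∀ w ∈ W, ∀ e j, |(a w e j : ℝ)| ≤ C ^ n) →
      (B ^ n)⁻¹ < |∑ j, β j * a0 j + ∑ w ∈ W, ∑ e, (∑ j, β j * a w e j) * mzT (ψ e) w| := by
  obtain ⟨S, _, vS, d, hd1, hpr⟩ := vec V hψV h
  exact mainWT β hβ hli V hV hψV hd1 hpr j0 N r κ C

end Pool.Agent.Y760.ZF.RC
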