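import Pool.Agent.V8H78.RC.MzT

/-!
# The heads of a small combination of weighted multiple series (helper78, after helper760)
-/

set_option autoImplicit false
set_option linter.unusedSectionVars false

namespace Pool.Agent.Y760.ZF.RC

open Filter Topology Pool.Agent.TH932.Abs Pool.Agent.TH932.Germs Pool.Agent.TH932.Chi
open Pool.Agent.TH796.AL Pool.Agent.Y760.ZG

variable {I : Type} [Fintype I] [DecidableEq I]

section

variable {L : ℕ → ℝ} {hL : Tendsto L atTop atTop} {F : IntermediateField ℚ ℝ}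
  {s : ℕ → I → ℕ} {x : I → ℝ} {B : I → Bool}

/-- **the system has no kernel**, for arbitrary primes -/
lemma ker_trivT (hs1 : ∀ n i, 1 ≤ s n i) (hinj : ∀ n, Function.Injective (s n)) (y : ℝ)
    (Λ : Finset (List I)) : ∃ R : ℕ, ∀ (Q : ℕ → ℕ), Function.Injective Q →
      ∀ (v : {i // x i = y} × Λ → GG),
      (∀ k : Fin (R + 1), ∑ j, (ug s (Q k) j.1.1 / ch1 hL (Q k) (-y)) *
        Gq s j.2.1 (pr (Q k)) * v j = 0) → ∀ j, v j = 0 := by
  classical
  obtain ⟨R, hR⟩ := zek {i // x i = y} Λ.card (Λ.sup List.length)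
  refine ⟨R, fun Q hQ v hv j0 => ?_⟩
  by_contra hj0
  choose vr hvr using fun j => gm_surj (v j)
  choose a ha using fun q => gm_surj (ch1 hL q (-y))
  have h1 : ∀ k : Fin (R + 1), ∀ᶠ n in (UU : Filter ℕ), ∑ j : {i // x i = y} × Λ,
      (((pr (Q k) : ℝ) ^ s n j.1.1)⁻¹ * ((a (Q k) n : ℚ) : ℝ)⁻¹) *
        hr (aw s n j.2.1) (pr (Q k)) * ((vr j n : ℚ) : ℝ) = 0 := by
    intro k
    have h2 := congrArg rho (hv k)
    rw [map_zero, map_sum, ← gr_zero] at h2
    have h3 : ∀ j : {i // x i = y} × Λ, rho ((ug s (Q k) j.1.1 / ch1 hL (Q k) (-y)) *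
        Gq s j.2.1 (pr (Q k)) * v j) = gr fun n =>
        (((pr (Q k) : ℝ) ^ s n j.1.1)⁻¹ * ((a (Q k) n : ℚ) : ℝ)⁻¹) *
        hr (aw s n j.2.1) (pr (Q k)) * ((vr j n : ℚ) : ℝ) := by
      intro j
      rw [map_mul, map_mul, rho_Gq, ← hvr j, ← ha (Q k), map_div₀, div_eq_mul_inv]
      unfold ug
      rw [rho_gm, rho_gm, rho_gm, gr_inv, gr_mul, gr_mul, gr_mul]
      congr 1
      funext n
      push_cast
      rfl
    rw [Finset.sum_congr rfl fun j _ => h3 j, gr_sum, gr_eq] at h2
    exact h2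
  have h2 : ∀ k : Fin (R + 1), ∀ᶠ n in (UU : Filter ℕ), a (Q k) n ≠ 0 := by
    intro k
    have h3 := ch1_ne hL (Q k) (-y)
    rw [← ha] at h3
    exact gm_ne_zero.1 h3
  have h3 : ∀ᶠ n in (UU : Filter ℕ), vr j0 n ≠ 0 := by
    rw [← hvr j0] at hj0
    exact gm_ne_zero.1 hj0
  obtain ⟨n, hn1, hn2, hn3⟩ := ((eventually_all.2 h1).and ((eventually_all.2 h2).and h3)).exists
  set κ : {i // x i = y} → List ℕ+ → ℝ := fun i γ =>
    ∑ β : Λ, if cvt n hs1 β.1 = γ then ((vr (i, β) n : ℚ) : ℝ) else 0 with hκ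
  have h4 := hR (fun i => s n i.1) (fun i j hij => Subtype.ext (hinj n hij))
    (Λ.image (cvt n hs1)) Finset.card_image_le (fun γ hγ => by
      obtain ⟨β, hβ, rfl⟩ := Finset.mem_image.1 hγ
      rw [cvt_length]
      exact Finset.le_sup (f := List.length) hβ) κ
    ⟨j0.1, cvt n hs1 j0.2.1, Finset.mem_image_of_mem _ j0.2.2, by
      rw [hκ]
      simp only
      rw [Finset.sum_eq_single j0.2]
      · rw [if_pos rfl]
        exact_mod_cast hn3
      · intro β _ hβ
        rw [if_neg]
        intro h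
        exact hβ (Subtype.ext (cvt_inj n hs1 hinj h))
      · intro h
        exact absurd (Finset.mem_univ _) h⟩
    (Finset.univ.image fun k : Fin (R + 1) => pr (Q k)) (fun p hp => by
      obtain ⟨k, _, rfl⟩ := Finset.mem_image.1 hp
      refine ⟨(pr_prime _).pos, ?_⟩
      have h5 := hn1 k
      have h6 : ((a (Q k) n : ℚ) : ℝ) ≠ 0 := by exact_mod_cast hn2 k
      have h7 : ∑ j : {i // x i = y} × Λ,
          (((pr (Q k) : ℝ) ^ s n j.1.1)⁻¹ * ((a (Q k) n : ℚ) : ℝ)⁻¹) *
          hr (aw s n j.2.1) (pr (Q k)) * ((vr j n : ℚ) : ℝ) =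
          ((a (Q k) n : ℚ) : ℝ)⁻¹ * ∑ i : {i // x i = y}, ((pr (Q k) : ℝ) ^ s n i.1)⁻¹ *
            ∑ γ ∈ Λ.image (cvt n hs1), κ i γ * hr (cl γ) (pr (Q k)) := by
        rw [Fintype.sum_prod_type, Finset.mul_sum]
        refine Finset.sum_congr rfl fun i _ => ?_
        have h8 : ∑ γ ∈ Λ.image (cvt n hs1), κ i γ * hr (cl γ) (pr (Q k)) =
            ∑ β : Λ, ((vr (i, β) n : ℚ) : ℝ) * hr (aw s n β.1) (pr (Q k)) := by
          rw [hκ]
          simp only [Finset.sum_mul]
          rw [Finset.sum_comm]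
          refine Finset.sum_congr rfl fun β _ => ?_
          rw [Finset.sum_eq_single (cvt n hs1 β.1)]
          · rw [if_pos rfl, cl_cvt]
          · intro γ _ hγ
            rw [if_neg (Ne.symm hγ), zero_mul]
          · intro h
            exact absurd (Finset.mem_image_of_mem _ β.2) h
        rw [h8, Finset.mul_sum, Finset.mul_sum]
        refine Finset.sum_congr rfl fun β _ => ?_
        ring
      rw [h7] at h5
      exact (mul_eq_zero.1 h5).resolve_left (inv_ne_zero h6))
  rw [Finset.card_image_of_injective _ (fun k k' h => by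
    have h5 := hQ (pr_inj h)
    exact Fin.ext h5), Finset.card_univ, Fintype.card_fin] at h4
  omega

end

section

variable {L : ℕ → ℝ} {hL : Tendsto L atTop atTop} {F : IntermediateField ℚ ℝ}
  {s : ℕ → I → ℕ} {x : I → ℝ} {B : I → Bool}

open Classical in
lemma headsT (hF : FiniteDimensional ℚ F) (hs : Lim s x L) (hx : ∀ i, x i = 0 ∨ 1 ≤ x i)
    (hB : ∀ i, B i = true ↔ 1 ≤ x i) (hs1 : ∀ n i, 1 ≤ s n i)
    (hLs : ∀ᶠ n in (UU : Filter ℕ), ∀ i, B i = true → L n ≤ (s n i : ℝ))
    (hinj : ∀ n, Function.Injective (s n))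
    {J S : Type} [Fintype J] [DecidableEq J] [Fintype S] {ψ : J → ℕ → ℝ}
    (hψ : ∀ j m, ψ j m ∈ F) {Ψ : ℝ} {b : ℕ} (hΨ : ∀ j m, 1 ≤ m → |ψ j m| ≤ Ψ * (m : ℝ) ^ b)
    {vS : S → J → ℝ} {d : J → S → ℝ}
    (hd1 : ∀ j j', ∑ σ, d j σ * vS σ j' = if j' = j then 1 else 0)
    (hpr : ∀ σ q0, ∃ q, q0 ≤ q ∧ ∀ j, ψ j (pr q) = vS σ j)
    {W : Type} [Fintype W] (w : W → List I) (jj : W → J) (hst : ∀ v, Lg B (w v)) (c : W → HR)
    (hc : ∀ v, c v ∈ SF hL F) (hn : Nul L (∑ v, c v * XgT s (ψ (jj v)) (w v))) {y : ℝ}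
    (hy : 1 ≤ y)
    (hw : ∀ v, c v ≠ 0 → w v = [] ∨ ∃ i u, w v = i :: u ∧ y ≤ x i) {i : I} (hi : x i = y)
    (β : List I) (j : J) :
    Nul L (∑ v ∈ Finset.univ.filter (fun v => hd i (w v)),
      if jj v = j then c v * Xb s B (w v).tail β else 0) := by
  set Λ : Finset (List I) := Finset.univ.biUnion fun v =>
    ((sp B (w v).tail).map Prod.fst).toFinset with hΛ
  have hΛm : ∀ v, ∀ p ∈ sp B (w v).tail, p.1 ∈ Λ := by
    intro v p hp
    rw [hΛ, Finset.mem_biUnion]
    refine ⟨v, Finset.mem_univ _, ?_⟩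
    rw [List.mem_toFinset, List.mem_map]
    exact ⟨p, hp, rfl⟩
  have hΛs : ∀ β ∈ Λ, ∀ a ∈ β, x a = 0 := by
    intro β hβ a ha
    rw [hΛ, Finset.mem_biUnion] at hβ
    obtain ⟨v, _, hv⟩ := hβ
    rw [List.mem_toFinset, List.mem_map] at hv
    obtain ⟨p, hp, rfl⟩ := hv
    have h1 := sp_small B _ p hp a ha
    refine (hx a).resolve_right fun h2 => ?_
    rw [(hB a).2 h2] at h1
    exact absurd h1 (by decide)
  set Y : I → List I → J → HR := fun i β j =>
    ∑ v ∈ Finset.univ.filter (fun v => hd i (w v)),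
      if jj v = j then c v * Xb s B (w v).tail β else 0 with hY
  by_cases hβ : β ∈ Λ
  swap
  · have h1 : ∀ v, Xb s B (w v).tail β = 0 := by
      intro v
      unfold Xb
      refine List.sum_eq_zero fun z hz => ?_
      obtain ⟨p, hp, rfl⟩ := List.mem_map.1 hz
      rw [if_neg]
      intro h
      exact hβ (h ▸ hΛm v p hp)
    intro t
    have h2 : Y i β j = 0 :=
      Finset.sum_eq_zero fun v _ => by rw [h1, mul_zero, ite_self]
    have h3 : Y i β j ∈ SR L t := by
      rw [h2]
      exact SR_zero t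
    exact h3
  -- bounds for the coefficients
  choose c0 hc0 hc0' using fun v => SF_bdd (hc v)
  set K : ℝ := ∑ v, c0 v with hK
  have hcK : ∀ v, c v ∈ SR L (-K) := fun v =>
    SR_anti hL (neg_le_neg (Finset.single_le_sum (f := c0) (fun v _ => hc0 v)
      (Finset.mem_univ v))) (hc0' v)
  obtain ⟨m0, hm0⟩ := SF_common hc
  have hU : ∀ q (i : {i // x i = y}), ug s q i.1 / ch1 hL q (-y) ∈ KK L hL := by
    intro q i
    have h1 := ug_const hL hs q i.1
    rwa [i.2] at h1
  have hlog2 : 0 < Real.log 2 := Real.log_pos (by norm_num)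
  obtain ⟨R, hR⟩ := ker_trivT (hL := hL) (x := x) hs1 hinj y Λ
  -- the step
  have hstep : ∀ t : ℝ, (∀ (j : {i // x i = y} × Λ) (e : J), Y j.1.1 j.2.1 e ∈ SR L t) →
      ∀ (σ : S) (j : {i // x i = y} × Λ), ∑ e, cs (vS σ e) * Y j.1.1 j.2.1 e ∈
        SR L (t + Real.log 2) := by
    intro t ht σ
    obtain ⟨q0, hq0⟩ := exists_nat_ge (Real.exp (Real.log 2 + K + t))
    obtain ⟨Q, hQ, hQ'⟩ := Filter.extraction_of_frequently_atTop
      (P := fun q => q0 + m0 ≤ q ∧ ∀ j, ψ j (pr q) = vS σ j)
      (Filter.frequently_atTop.2 fun a => by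
        obtain ⟨q, hq, hq'⟩ := hpr σ (max a (q0 + m0))
        exact ⟨q, (le_max_left _ _).trans hq, (le_max_right _ _).trans hq, hq'⟩)
    refine inv_SR hL (fun (k : Fin (R + 1)) (j : {i // x i = y} × Λ) =>
      (ug s (Q k) j.1.1 / ch1 hL (Q k) (-y)) *
        Gq s j.2.1 (pr (Q k))) (fun k j => (KK L hL).mul_mem (hU _ _)
          (Gq_KK hs _ (hΛs _ j.2.2) _)) (hR Q hQ.injective) (fun k => ?_)
    set q : ℕ := Q k with hq
    have hqq : q0 + m0 ≤ q := (hQ' k).1
    have hqv : ∀ j, ψ j (pr q) = vS σ j := (hQ' k).2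
    have hp := pr_prime q
    have hp0 : 0 < pr q := hp.pos
    have hp2 : 2 ≤ pr q := hp.two_le
    have hpr : (0 : ℝ) < pr q := by exact_mod_cast hp0
    have hlog : 0 < Real.log (pr q) := Real.log_pos (by exact_mod_cast hp.one_lt)
    set N : ℕ := (pr q) ^ (⌈y⌉₊) with hN
    have hy1 : 1 ≤ ⌈y⌉₊ := Nat.one_le_ceil_iff.2 (by linarith only [hy])
    have hN2 : 2 ≤ N := hp2.trans (Nat.le_self_pow (by omega) _)
    have h1 := trunc_sumT hL hLs hst (f := fun v => ψ (jj v)) (fun v => hΨ (jj v)) hcK hn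
      (k := pr q * N) (Nat.mul_pos hp0 (by omega))
    have h2 := lead_sumT hF hs hx w (f := fun v => ψ (jj v)) (fun v => hψ (jj v)) c hm0 hcK hy hw
      (q := q) (by omega) (N := N) (by omega)
      (SR_anti hL (by
        have h3 : Real.log ((pr q * N : ℕ) : ℝ) = (1 + (⌈y⌉₊ : ℝ)) * Real.log (pr q) := by
          rw [hN]
          push_cast
          rw [Real.log_mul hpr.ne' (pow_pos hpr _).ne', Real.log_pow]
          ring
        rw [h3]
        have h4 := Nat.le_ceil y
        nlinarith only [h4, hlog]) h1)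
    have hlogp : Real.log 2 + K + t ≤ Real.log (pr q) := by
      rw [Real.le_log_iff_exp_le hpr]
      refine hq0.trans ?_
      have := pr_ge q
      exact_mod_cast (by omega : q0 ≤ pr q)
    have hUS : ∀ i : {i // x i = y}, rho (ug s q i.1 / ch1 hL q (-y)) ∈ SR L 0 := fun i =>
      SR_KA hL ⊤ ⟨_, rho_mem_KA hL ⊤ ⟨_, hU q i⟩⟩
    have hGS : ∀ (β : Λ) (m : ℕ), rho (Gq s β.1 m) ∈ SR L 0 := fun β m => SR_Gq hL hs hx β.1 m
    -- the expansions
    have h3 : ∑ i ∈ Finset.univ.filter (fun i => x i = y), rho (ug s q i / ch1 hL q (-y)) *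
        ∑ m ∈ Finset.Ico 1 N, rho (lg s i m) *
          ∑ β : Λ, rho (Gq s β.1 (pr q * m)) * ∑ e, cs (ψ e (pr q * m)) * Y i β e ∈
        SR L (Real.log (pr q) - K) := by
      have h4 : ∑ i ∈ Finset.univ.filter (fun i => x i = y), rho (ug s q i / ch1 hL q (-y)) *
          ∑ v ∈ Finset.univ.filter (fun v => hd i (w v)), c v *
            ∑ m ∈ Finset.Ico 1 N, cs (ψ (jj v) (pr q * m)) *
              (rho (lg s i m) * Rg s B (w v).tail (pr q * m)) ∈
          SR L (Real.log (pr q) - K) := by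
        refine SR_sum hL _ _ fun i hi => ?_
        rw [Finset.mem_filter] at hi
        have h5 : ∑ v ∈ Finset.univ.filter (fun v => hd i (w v)), c v *
            ∑ m ∈ Finset.Ico 1 N, cs (ψ (jj v) (pr q * m)) *
              (rho (lg s i m) * Rg s B (w v).tail (pr q * m)) ∈
            SR L (Real.log (pr q) - K) := by
          refine SR_sum hL _ _ fun v _ => ?_
          have h6 : ∑ m ∈ Finset.Ico 1 N, cs (ψ (jj v) (pr q * m)) *
              (rho (lg s i m) * Rg s B (w v).tail (pr q * m)) ∈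
              SR L (Real.log (pr q)) := by
            refine SR_sum hL _ _ fun m hm => SR_cs_mul hL _ ?_
            rw [Finset.mem_Ico] at hm
            have h7 := SR_mul hL (SR_lg_zero hL hs hx i hm.1)
              (SR_Rg hL hLs (w v).tail (k := pr q * m) (Nat.mul_pos hp0 hm.1))
            refine SR_anti hL ?_ h7
            rw [zero_add]
            refine Real.log_le_log hpr ?_
            exact_mod_cast Nat.le_mul_of_pos_right _ hm.1
          have h7 := SR_mul hL (hcK v) h6
          refine SR_anti hL (le_of_eq ?_) h7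
          ring
        have h6 := SR_mul hL (hUS ⟨i, hi.2⟩) h5
        rwa [zero_add] at h6
      have h5 := SR_sub hL h2 h4
      refine (congrArg (fun z => z ∈ SR L (Real.log (pr q) - K)) ?_).mp h5
      rw [← Finset.sum_sub_distrib]
      refine Finset.sum_congr rfl fun i _ => ?_
      rw [← mul_sub]
      congr 1
      rw [← Finset.sum_sub_distrib]
      have e1 : ∀ v, c v * ∑ m ∈ Finset.Ico 1 N, cs (ψ (jj v) (pr q * m)) *
            rho (lg s i m * Gq s (w v).tail (pr q * m)) -
          c v * ∑ m ∈ Finset.Ico 1 N, cs (ψ (jj v) (pr q * m)) *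
            (rho (lg s i m) * Rg s B (w v).tail (pr q * m)) =
          ∑ m ∈ Finset.Ico 1 N, rho (lg s i m) *
            ∑ β : Λ, rho (Gq s β.1 (pr q * m)) * ∑ e, cs (ψ e (pr q * m)) *
              (if jj v = e then c v * Xb s B (w v).tail β else 0) := by
        intro v
        rw [← mul_sub, ← Finset.sum_sub_distrib, Finset.mul_sum]
        refine Finset.sum_congr rfl fun m hm => ?_
        rw [Finset.mem_Ico] at hm
        have e2 : ∀ β : Λ, ∑ e, cs (ψ e (pr q * m)) *
              (if jj v = e then c v * Xb s B (w v).tail β else 0) =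
            cs (ψ (jj v) (pr q * m)) * (c v * Xb s B (w v).tail β) := by
          intro β
          rw [Finset.sum_eq_single (jj v)]
          · rw [if_pos rfl]
          · intro e _ he
            rw [if_neg (Ne.symm he), mul_zero]
          · intro h
            exact absurd (Finset.mem_univ _) h
        rw [← mul_sub, map_mul, Gq_expand hL hLs (w v).tail (k := pr q * m)
          (Nat.mul_pos hp0 hm.1),
          Xb_sum s B Λ (sp B (w v).tail) (hΛm v) (fun β => rho (Gq s β (pr q * m)))]
        rw [mul_add, add_sub_cancel_right, mul_left_comm (cs _), mul_left_comm (c v)]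
        congr 1
        rw [Finset.mul_sum, Finset.mul_sum]
        refine Finset.sum_congr rfl fun β _ => ?_
        rw [e2 β]
        show c v * (cs _ * (_ * Xb s B (w v).tail β.1)) = _
        ring
      rw [Finset.sum_congr rfl fun v _ => e1 v, Finset.sum_comm]
      refine Finset.sum_congr rfl fun m _ => ?_
      rw [← Finset.mul_sum]
      congr 1
      rw [Finset.sum_comm]
      refine Finset.sum_congr rfl fun β _ => ?_
      rw [← Finset.mul_sum]
      congr 1
      rw [Finset.sum_comm]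
      refine Finset.sum_congr rfl fun e _ => ?_
      rw [← Finset.mul_sum]
    -- the first term
    have h5 : ∑ i ∈ Finset.univ.filter (fun i => x i = y), rho (ug s q i / ch1 hL q (-y)) *
        ∑ β : Λ, rho (Gq s β.1 (pr q)) * ∑ e, cs (vS σ e) * Y i β e ∈
          SR L (t + Real.log 2) := by
      have h6 : ∑ i ∈ Finset.univ.filter (fun i => x i = y), rho (ug s q i / ch1 hL q (-y)) *
          ∑ m ∈ Finset.Ico 2 N, rho (lg s i m) *
            ∑ β : Λ, rho (Gq s β.1 (pr q * m)) * ∑ e, cs (ψ e (pr q * m)) * Y i β e ∈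
            SR L (t + Real.log 2) := by
        refine SR_sum hL _ _ fun i hi => ?_
        rw [Finset.mem_filter] at hi
        have h7 : ∑ m ∈ Finset.Ico 2 N, rho (lg s i m) *
            ∑ β : Λ, rho (Gq s β.1 (pr q * m)) * ∑ e, cs (ψ e (pr q * m)) * Y i β e ∈
            SR L (t + Real.log 2) := by
          refine SR_sum hL _ _ fun m hm => ?_
          rw [Finset.mem_Ico] at hm
          have h8 : ∑ β : Λ, rho (Gq s β.1 (pr q * m)) * ∑ e, cs (ψ e (pr q * m)) * Y i β e ∈
              SR L t := by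
            refine SR_sum hL _ _ fun β _ => ?_
            have h9 := SR_mul hL (hGS β (pr q * m)) (SR_sum hL Finset.univ
              (fun e => cs (ψ e (pr q * m)) * Y i β e)
              (fun e _ => SR_cs_mul hL _ (ht (⟨i, hi.2⟩, β) e)))
            rwa [zero_add] at h9
          have h9 := SR_mul hL (SR_lg hL hs i (m := m) (by omega)) h8
          refine SR_anti hL ?_ h9
          show t + Real.log 2 ≤ x i * Real.log m + t
          have h10 : Real.log 2 ≤ Real.log m :=
            Real.log_le_log (by norm_num) (by exact_mod_cast hm.1)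
          have h11 : (1 : ℝ) ≤ x i := by rw [hi.2]; exact hy
          nlinarith only [h10, h11, hlog2]
        have h8 := SR_mul hL (hUS ⟨i, hi.2⟩) h7
        rwa [zero_add] at h8
      have h7 := SR_sub hL (SR_anti hL (show t + Real.log 2 ≤ Real.log (pr q) - K by
        linarith only [hlogp]) h3) h6
      refine (congrArg (fun z => z ∈ SR L (t + Real.log 2)) ?_).mp h7
      rw [← Finset.sum_sub_distrib]
      refine Finset.sum_congr rfl fun i _ => ?_
      rw [← mul_sub]
      congr 1
      rw [Finset.sum_eq_sum_Ico_succ_bot (by omega : 1 < N), add_sub_cancel_right, lg_one, map_one,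
        one_mul, mul_one]
      simp only [hqv]
    refine (congrArg (fun z => z ∈ SR L (t + Real.log 2)) ?_).mp h5
    rw [Finset.sum_subtype (Finset.univ.filter (fun i => x i = y)) (p := fun i => x i = y)
        (fun i => by rw [Finset.mem_filter]; exact ⟨fun h => h.2, fun h => ⟨Finset.mem_univ _, h⟩⟩),
      Fintype.sum_prod_type]
    refine Finset.sum_congr rfl fun i _ => ?_
    rw [Finset.mul_sum]
    refine Finset.sum_congr rfl fun β _ => ?_
    rw [map_mul, mul_assoc]
  have hstep' : ∀ t : ℝ, (∀ (j : {i // x i = y} × Λ) (e : J), Y j.1.1 j.2.1 e ∈ SR L t) →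
      ∀ (j : {i // x i = y} × Λ) (e : J), Y j.1.1 j.2.1 e ∈ SR L (t + Real.log 2) := by
    intro t ht j e
    have h1 : Y j.1.1 j.2.1 e = ∑ σ, cs (d e σ) * ∑ e', cs (vS σ e') * Y j.1.1 j.2.1 e' := by
      simp only [Finset.mul_sum]
      rw [Finset.sum_comm]
      have e1 : ∀ e', ∑ σ, cs (d e σ) * (cs (vS σ e') * Y j.1.1 j.2.1 e') =
          (if e' = e then 1 else 0) * Y j.1.1 j.2.1 e' := by
        intro e'
        have h2 := congrArg cs (hd1 e e')
        rw [cs_sum] at h2
        have h3 : cs (if e' = e then (1 : ℝ) else 0) = (if e' = e then 1 else 0 : HR) := by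
          split_ifs
          · exact cs_one
          · exact cs_zero
        rw [h3] at h2
        rw [← h2, Finset.sum_mul]
        refine Finset.sum_congr rfl fun σ _ => ?_
        rw [cs_mul, mul_assoc]
      rw [Finset.sum_congr rfl fun e' _ => e1 e', Finset.sum_eq_single e]
      · rw [if_pos rfl, one_mul]
      · intro e' _ he'
        rw [if_neg he', zero_mul]
      · intro h
        exact absurd (Finset.mem_univ _) h
    rw [h1]
    exact SR_sum hL _ _ fun σ _ => SR_cs_mul hL _ (hstep t ht σ j)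
  -- the start
  have hstart : ∀ (j : {i // x i = y} × Λ) (e : J), Y j.1.1 j.2.1 e ∈ SR L (-K) := by
    intro j e
    rw [hY]
    refine SR_sum hL _ _ fun v _ => ?_
    split_ifs
    · have h1 : Xb s B (w v).tail j.2.1 ∈ SR L 0 := by
        unfold Xb
        have h2 : ∀ l : List (List I × List I),
            (l.map fun p => if p.1 = j.2.1 then Xg s B p.2 else 0).sum ∈ SR L 0 := by
          intro l
          induction l with
          | nil =>
            rw [List.map_nil, List.sum_nil]
            exact SR_zero _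
          | cons p l ih =>
            rw [List.map_cons, List.sum_cons]
            refine SR_add hL ?_ ih
            split_ifs
            · exact SR_Xg hL hLs _
            · exact SR_zero _
        exact h2 _
      have h2 := SR_mul hL (hcK v) h1
      rwa [add_zero] at h2
    · exact SR_zero _
  have hall : ∀ (k : ℕ) (j : {i // x i = y} × Λ) (e : J),
      Y j.1.1 j.2.1 e ∈ SR L (-K + k * Real.log 2) := by
    intro k
    induction k with
    | zero =>
      intro j e
      rw [Nat.cast_zero, zero_mul, add_zero]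
      exact hstart j e
    | succ k ih =>
      intro j e
      have h1 := hstep' _ ih j e
      refine SR_anti hL (le_of_eq ?_) h1
      push_cast
      ring
  intro t
  obtain ⟨k, hk⟩ := exists_nat_ge ((t + K) / Real.log 2)
  rw [div_le_iff₀ hlog2] at hk
  exact SR_anti hL (by linarith only [hk]) (hall k (⟨i, hi⟩, ⟨β, hβ⟩) j)

end

end Pool.Agent.Y760.ZF.RC
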