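import Pool.Agent.V8H78.RC.HdT

/-!
# Weighted multiple series are linearly independent over finite sums of characters
(helper78, after helper760)
-/

set_option autoImplicit false
set_option linter.unusedSectionVars false

namespace Pool.Agent.Y760.ZF.RC

open Filter Topology Pool.Agent.TH932.Abs Pool.Agent.TH932.Germs Pool.Agent.TH932.Chi
open Pool.Agent.TH796.AL Pool.Agent.Y760.ZG

variable {I : Type} [Fintype I] [DecidableEq I]

section

variable {L : ℕ → ℝ} {hL : Tendsto L atTop atTop} {F : IntermediateField ℚ ℝ}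
  {s : ℕ → I → ℕ} {x : I → ℝ} {B : I → Bool}

/-- **weighted multiple series with large first arguments are linearly independent** -/
theorem indT (hF : FiniteDimensional ℚ F) (hs : Lim s x L) (hx : ∀ i, x i = 0 ∨ 1 ≤ x i)
    (hB : ∀ i, B i = true ↔ 1 ≤ x i) (hs1 : ∀ n i, 1 ≤ s n i)
    (hLs : ∀ᶠ n in (UU : Filter ℕ), ∀ i, B i = true → L n ≤ (s n i : ℝ))
    (hinj : ∀ n, Function.Injective (s n))
    {J S : Type} [Fintype J] [DecidableEq J] [Fintype S] {ψ : J → ℕ → ℝ}
    (hψ : ∀ j m, ψ j m ∈ F) {Ψ : ℝ} {b : ℕ} (hΨ : ∀ j m, 1 ≤ m → |ψ j m| ≤ Ψ * (m : ℝ) ^ b)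
    {vS : S → J → ℝ} {d : J → S → ℝ}
    (hd1 : ∀ j j', ∑ σ, d j σ * vS σ j' = if j' = j then 1 else 0)
    (hpr : ∀ σ q0, ∃ q, q0 ≤ q ∧ ∀ j, ψ j (pr q) = vS σ j)
    {W : Type} [Fintype W] (w : W → List I) (jj : W → J)
    (hw : ∀ v v', w v = w v' → (w v = [] ∨ jj v = jj v') → v = v') (hst : ∀ v, Lg B (w v))
    (c : W → HR) (hc : ∀ v, c v ∈ SF hL F) (hn : Nul L (∑ v, c v * XgT s (ψ (jj v)) (w v))) :
    ∀ v, c v = 0 := by
  classical
  by_cases hBB : ∀ v, c v ≠ 0 → w v = []
  · intro v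
    by_contra hv
    have h1 : ∑ v, c v * XgT s (ψ (jj v)) (w v) = c v := by
      rw [Finset.sum_eq_single v]
      · rw [hBB v hv, XgT_nil, mul_one]
      · intro v' _ hv'
        by_contra h2
        have h3 : c v' ≠ 0 := left_ne_zero_of_mul h2
        exact hv' (hw v' v ((hBB v' h3).trans (hBB v hv).symm) (Or.inl (hBB v' h3)))
      · intro h2
        exact absurd (Finset.mem_univ v) h2
    rw [h1] at hn
    exact hv (SF_nul hF (hc v) hn)
  exfalso
  push Not at hBB
  obtain ⟨v2, hv2, hv2'⟩ := hBB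
  set φ : W → ℝ := fun v => match w v with
    | i :: _ => x i
    | _ => 0 with hφ
  obtain ⟨v3, hv3, hmin⟩ := Finset.exists_min_image
    (Finset.univ.filter fun v => c v ≠ 0 ∧ w v ≠ []) φ
    ⟨v2, Finset.mem_filter.2 ⟨Finset.mem_univ _, hv2, hv2'⟩⟩
  rw [Finset.mem_filter] at hv3
  obtain ⟨i3, u3, h3, hi3⟩ := (hst v3).resolve_left hv3.2.2
  have hφ3 : φ v3 = x i3 := by
    rw [hφ]
    simp only [h3]
  have hw' : ∀ v, c v ≠ 0 → w v = [] ∨ ∃ i u, w v = i :: u ∧ x i3 ≤ x i := by
    intro v hv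
    rcases hst v with h | ⟨i, u, h, _⟩
    · exact Or.inl h
    · right
      refine ⟨i, u, h, ?_⟩
      have h4 := hmin v (Finset.mem_filter.2 ⟨Finset.mem_univ _, hv, by rw [h]; simp⟩)
      rw [hφ3] at h4
      have h5 : φ v = x i := by
        rw [hφ]
        simp only [h]
      rwa [h5] at h4
  have hheads := fun β => headsT hF hs hx hB hs1 hLs hinj hψ hΨ hd1 hpr w jj hst c hc hn
    ((hB i3).1 hi3) hw' rfl β (jj v3)
  obtain ⟨v4, hv4, hmax⟩ := Finset.exists_max_image
    (Finset.univ.filter fun v => c v ≠ 0 ∧ hd i3 (w v) ∧ jj v = jj v3)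
    (fun v => (pre B (w v).tail).length)
    ⟨v3, Finset.mem_filter.2 ⟨Finset.mem_univ _, hv3.2.1, by rw [h3, hd_cons], rfl⟩⟩
  rw [Finset.mem_filter] at hv4
  set β : List I := pre B (w v4).tail with hβ
  have h5 := indW hF hs hx hB hs1 hLs hinj
    (∑ v : {v // c v ≠ 0 ∧ hd i3 (w v) ∧ jj v = jj v3 ∧ pre B (w v).tail = β},
      (rst B (w v).tail).length)
    {v // c v ≠ 0 ∧ hd i3 (w v) ∧ jj v = jj v3 ∧ pre B (w v).tail = β}
    (fun v => rst B (w v).tail) (fun v v' hvv => by
      apply Subtype.ext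
      apply hw
      · rw [hd_eq v.2.2.1, hd_eq v'.2.2.1, pre_rst B (w v).tail, pre_rst B (w v').tail,
          v.2.2.2.2, v'.2.2.2.2]
        congr 2
      · right
        rw [v.2.2.2.1, v'.2.2.2.1]) (fun v => Lg_rst B _) (fun v =>
      Finset.single_le_sum
        (f := fun v : {v // c v ≠ 0 ∧ hd i3 (w v) ∧ jj v = jj v3 ∧ pre B (w v).tail = β} =>
          (rst B (w v).tail).length) (fun _ _ => Nat.zero_le _) (Finset.mem_univ v))
    (fun v => c v) (fun v => hc v) (by
      refine (congrArg (Nul L) ?_).mp (hheads β)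
      have e1 : ∀ v ∈ Finset.univ.filter (fun v => hd i3 (w v)),
          (if jj v = jj v3 then c v * Xb s B (w v).tail β else 0) =
            if c v ≠ 0 ∧ hd i3 (w v) ∧ jj v = jj v3 ∧ pre B (w v).tail = β then
            c v * Xg s B (rst B (w v).tail) else 0 := by
        intro v hv
        rw [Finset.mem_filter] at hv
        by_cases hjv : jj v = jj v3
        · rw [if_pos hjv]
          by_cases hcv : c v = 0
          · rw [hcv, zero_mul, if_neg]
            intro h
            exact h.1 rfl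
          · have h9 := hmax v (Finset.mem_filter.2 ⟨Finset.mem_univ _, hcv, hv.2, hjv⟩)
            rw [Xb_pre s B (w v).tail β h9]
            by_cases h10 : pre B (w v).tail = β
            · rw [if_pos h10, if_pos ⟨hcv, hv.2, hjv, h10⟩]
            · rw [if_neg h10, if_neg (fun h => h10 h.2.2.2), mul_zero]
        · rw [if_neg hjv, if_neg (fun h => hjv h.2.2.1)]
      have e2 : ∑ v ∈ Finset.univ.filter (fun v => hd i3 (w v)),
          (if jj v = jj v3 then c v * Xb s B (w v).tail β else 0) =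
          ∑ v ∈ Finset.univ.filter (fun v => hd i3 (w v)),
            if c v ≠ 0 ∧ hd i3 (w v) ∧ jj v = jj v3 ∧ pre B (w v).tail = β then
            c v * Xg s B (rst B (w v).tail) else 0 := Finset.sum_congr rfl e1
      refine Eq.trans ?_ (e2.trans ?_)
      · refine Finset.sum_congr rfl fun v _ => ?_
        split_ifs <;> rfl
      rw [← Finset.sum_filter, Finset.filter_filter]
      refine Finset.sum_subtype _ (fun v => ?_) (fun v => c v * Xg s B (rst B (w v).tail))
      rw [Finset.mem_filter]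
      constructor
      · intro h
        exact h.2.2
      · intro h
        exact ⟨Finset.mem_univ _, h.2.1, h⟩) ⟨v4, hv4.2.1, hv4.2.2.1, hv4.2.2.2, rfl⟩
  exact hv4.2.1 h5

end

end Pool.Agent.Y760.ZF.RC
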