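import Pool.Agent.V8H78.RC.PtT

/-!
# Weighted multiple series as germs: tails (helper78, after helper760)
-/

set_option autoImplicit false
set_option linter.unusedSectionVars false

namespace Pool.Agent.Y760.ZF.RC

open Filter Topology Pool.Agent.TH932.Abs Pool.Agent.TH932.Germs Pool.Agent.TH932.Chi
open Pool.Agent.TH796.AL Pool.Agent.Y760.ZG

section

variable {I : Type} (s : ℕ → I → ℕ) (ψ : ℕ → ℝ)

/-- the terms of a weighted series -/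
noncomputable def tmT (ψ : ℕ → ℝ) (a : ℕ) (u : List ℕ) (m : ℕ) : ℝ :=
  ψ m * (hr u m / (m : ℝ) ^ a)

/-- the weighted series, the first argument belongs to the largest variable -/
noncomputable def mzT (ψ : ℕ → ℝ) : List ℕ → ℝ
  | [] => 1
  | a :: u => tl (tmT ψ a u) 1

/-- the remainder -/
noncomputable def RtT (n : ℕ) : List I → ℕ → ℝ
  | [], _ => 0
  | i :: u, k => - tl (tmT ψ (s n i) (aw s n u)) k

lemma RtT_nil (n k : ℕ) : RtT s ψ n ([] : List I) k = 0 := by rw [RtT]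
lemma RtT_cons (n : ℕ) (i : I) (u : List I) (k : ℕ) :
    RtT s ψ n (i :: u) k = - tl (tmT ψ (s n i) (aw s n u)) k := by rw [RtT]

variable {ψ} {Ψ : ℝ} {b : ℕ}

lemma tmT_bd (hΨ : ∀ m, 1 ≤ m → |ψ m| ≤ Ψ * (m : ℝ) ^ b) {a σ : ℕ} (u : List ℕ) (ha : σ ≤ a)
    {m : ℕ} (hm : 1 ≤ m) :
    |tmT ψ a u m| ≤ Ψ * (m : ℝ) ^ (b + u.length) * ((m : ℝ) ^ σ)⁻¹ := by
  have hm1 : (1 : ℝ) ≤ m := by exact_mod_cast hm
  unfold tmT
  rw [abs_mul, abs_of_nonneg (div_nonneg (hr_nonneg _ _) (by positivity)), div_eq_mul_inv,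
    pow_add]
  have h1 := hΨ m hm
  have h2 := hr_le u m hm
  have h3 : ((m : ℝ) ^ a)⁻¹ ≤ ((m : ℝ) ^ σ)⁻¹ :=
    inv_anti₀ (by positivity) (pow_le_pow_right₀ hm1 ha)
  have h4 : hr u m * ((m : ℝ) ^ a)⁻¹ ≤ (m : ℝ) ^ u.length * ((m : ℝ) ^ σ)⁻¹ :=
    mul_le_mul h2 h3 (by positivity) (by positivity)
  have h5 := mul_le_mul h1 h4 (mul_nonneg (hr_nonneg _ _) (by positivity))
    ((abs_nonneg _).trans h1)
  refine h5.trans (le_of_eq ?_)
  ring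

lemma Psi_nonneg (hΨ : ∀ m, 1 ≤ m → |ψ m| ≤ Ψ * (m : ℝ) ^ b) : 0 ≤ Ψ := by
  have h1 := hΨ 1 le_rfl
  rw [Nat.cast_one, one_pow, mul_one] at h1
  exact (abs_nonneg _).trans h1

lemma RtT_bd (hΨ : ∀ m, 1 ≤ m → |ψ m| ≤ Ψ * (m : ℝ) ^ b) (n : ℕ) {w : List I} {σ : ℕ}
    (hσ : b + w.length + 2 ≤ σ) (hs : ∀ i u, w = i :: u → σ ≤ s n i) {k : ℕ} (hk : 1 ≤ k) :
    |RtT s ψ n w k| ≤ Ψ * Pool.Agent.Y760.ZG.ze 2 * (k : ℝ) ^ (b + w.length + 2) * ((k : ℝ) ^ σ)⁻¹ := by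
  have hz := ze_ge_one (le_refl 2)
  have hz0 : 0 ≤ Pool.Agent.Y760.ZG.ze 2 := by linarith only [hz]
  have hΨ0 := Psi_nonneg hΨ
  have hk1 : (1 : ℝ) ≤ k := by exact_mod_cast hk
  cases w with
  | nil =>
    rw [RtT_nil, abs_zero]
    positivity
  | cons i u =>
    rw [List.length_cons] at hσ ⊢
    rw [RtT_cons, abs_neg]
    have h1 := tail_bd (f := tmT ψ (s n i) (aw s n u)) (C := Ψ)
      (A := b + u.length) (σ := σ) hΨ0 (by omega) (fun m hm => by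
        have h2 := tmT_bd hΨ (aw s n u) (hs i u rfl) hm
        rwa [aw_length] at h2) hk
    refine h1.trans ?_
    have h2 : (k : ℝ) ^ (b + u.length + 2) ≤ (k : ℝ) ^ (b + (u.length + 1) + 2) :=
      pow_le_pow_right₀ hk1 (by omega)
    gcongr

/-- truncation -/
lemma truncT (hΨ : ∀ m, 1 ≤ m → |ψ m| ≤ Ψ * (m : ℝ) ^ b) (n : ℕ) {i : I} {u : List I} {σ : ℕ}
    (hσ : b + u.length + 2 ≤ σ) (hs : σ ≤ s n i) {k : ℕ} (hk : 1 ≤ k) :
    ∑ m ∈ Finset.Ico 1 k, tmT ψ (s n i) (aw s n u) m =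
      mzT ψ (aw s n (i :: u)) + RtT s ψ n (i :: u) k := by
  have hΨ0 := Psi_nonneg hΨ
  have h1 : Summable fun m => tmT ψ (s n i) (aw s n u) (m + 1) :=
    tail_sum (f := tmT ψ (s n i) (aw s n u)) (k := 1) (C := Ψ)
      (A := b + u.length) (σ := σ) hΨ0 (by omega) (fun m hm => by
        have h2 := tmT_bd hΨ (aw s n u) hs hm
        rwa [aw_length] at h2) le_rfl
  rw [tail_split h1 hk, RtT_cons, aw_cons, mzT, ← sub_eq_add_neg]

end

/-! ### germs -/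

section

variable {I : Type} [Fintype I] [DecidableEq I] (s : ℕ → I → ℕ) (ψ : ℕ → ℝ)

lemma GrH_gr (a : I) (u : List I) (k : ℕ) : GrH s ψ (a :: u) k =
    gr fun n => ∑ m ∈ Finset.Ico 1 k, tmT ψ (s n a) (aw s n u) m := by
  rw [GrH_cons, ← gr_sum]
  refine Finset.sum_congr rfl fun m _ => ?_
  rw [map_mul, rho_Gq]
  unfold lg
  rw [rho_gm, cs_eq, gr_mul, gr_mul]
  congr 1
  funext n
  unfold tmT
  push_cast
  rw [div_eq_inv_mul]

/-- the remainder as a germ -/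
noncomputable def RgT (w : List I) (k : ℕ) : HR := gr fun n => RtT s ψ n w k

/-- the weighted series as a germ -/
noncomputable def XgT (w : List I) : HR := gr fun n => mzT ψ (aw s n w)

lemma XgT_nil : XgT s ψ ([] : List I) = 1 := by
  unfold XgT
  simp only [aw_nil, mzT]
  exact gr_one

variable {s ψ} {B : I → Bool} {L : ℕ → ℝ} (hL : Tendsto L atTop atTop)
  (hLs : ∀ᶠ n in (UU : Filter ℕ), ∀ i, B i = true → L n ≤ (s n i : ℝ))
  {Ψ : ℝ} {b : ℕ} (hΨ : ∀ m, 1 ≤ m → |ψ m| ≤ Ψ * (m : ℝ) ^ b)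
include hL hLs hΨ

lemma ev_sigT (r : ℕ) : ∀ᶠ n in (UU : Filter ℕ), b + r + 2 ≤ ⌈L n⌉₊ ∧ ∀ i, B i = true →
    ⌈L n⌉₊ ≤ s n i := by
  filter_upwards [ev_of_atTop (hL.eventually_ge_atTop ((b + r + 2 : ℕ) : ℝ)), hLs] with n hn hn'
  refine ⟨?_, fun i hi => Nat.ceil_le.2 (hn' i hi)⟩
  exact_mod_cast hn.trans (Nat.le_ceil _)

lemma SR_RgT {w : List I} (hw : Lg B w) {k : ℕ} (hk : 1 ≤ k) :
    RgT s ψ w k ∈ SR L (Real.log k) := by
  unfold RgT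
  rw [mem_SR]
  intro ε hε
  have h1 := SR_cst hL (Ψ * Pool.Agent.Y760.ZG.ze 2 * (k : ℝ) ^ (b + w.length + 2))
  rw [cst_eq, mem_SR] at h1
  have hk1 : (1 : ℝ) ≤ k := by exact_mod_cast hk
  filter_upwards [h1 ε hε, ev_sigT hL hLs hΨ w.length, L_nonneg hL] with n h2 h3 h4
  have h5 := RtT_bd s hΨ n (w := w) h3.1 (by
    intro i u hiu
    refine h3.2 i ?_
    rcases hw with h | ⟨j, v, h, hj⟩
    · rw [h] at hiu
      exact absurd hiu (by simp)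
    · rw [h] at hiu
      injection hiu with hji _
      rwa [← hji]) hk
  refine h5.trans ?_
  have h6 : ((k : ℝ) ^ ⌈L n⌉₊)⁻¹ ≤ Real.exp (-(Real.log k) * L n) := by
    rw [show ((k : ℝ) ^ ⌈L n⌉₊)⁻¹ = Real.exp (-(Real.log k) * (⌈L n⌉₊ : ℝ)) by
      rw [neg_mul, Real.exp_neg, mul_comm (Real.log k), Real.exp_nat_mul,
        Real.exp_log (by linarith only [hk1])]]
    apply Real.exp_le_exp.2
    have h7 := Nat.le_ceil (L n)
    have h8 := Real.log_nonneg hk1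
    nlinarith only [h7, h8]
  have h7 := (le_abs_self _).trans h2
  have hz := ze_ge_one (le_refl 2)
  have hz0 : 0 ≤ Pool.Agent.Y760.ZG.ze 2 := by linarith only [hz]
  calc Ψ * Pool.Agent.Y760.ZG.ze 2 * (k : ℝ) ^ (b + w.length + 2) * ((k : ℝ) ^ ⌈L n⌉₊)⁻¹ ≤
      Real.exp (-(0 - ε) * L n) * Real.exp (-(Real.log k) * L n) :=
        mul_le_mul h7 h6 (by positivity) (by positivity)
    _ = Real.exp (-(Real.log k - ε) * L n) := by
      rw [← Real.exp_add]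
      congr 1
      ring

lemma GrH_Lg {w : List I} (hw : Lg B w) {k : ℕ} (hk : 1 ≤ k) :
    GrH s ψ w k = XgT s ψ w + RgT s ψ w k := by
  rcases hw with rfl | ⟨i, u, rfl, hi⟩
  · rw [GrH_nil, XgT_nil]
    unfold RgT
    simp only [RtT_nil]
    rw [gr_zero, add_zero]
  · rw [GrH_gr]
    unfold XgT RgT
    rw [gr_add, gr_eq]
    filter_upwards [ev_sigT hL hLs hΨ u.length] with n hn
    exact truncT s hΨ n hn.1 (hn.2 i hi) hk

lemma DD_XgT {F : IntermediateField ℚ ℝ} (hψ : ∀ m, ψ m ∈ F) {x : I → ℝ} (hs : Lim s x L)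
    {w : List I} (hw : Lg B w) : DD hL F (XgT s ψ w) := by
  intro E
  obtain ⟨k, hk⟩ := exists_nat_ge (Real.exp E)
  have hk0 : (0 : ℝ) < k := lt_of_lt_of_le (Real.exp_pos E) hk
  have hk1 : 1 ≤ k := by
    have : 0 < k := by exact_mod_cast hk0
    omega
  refine ⟨GrH s ψ w k, SF_GrH hψ hs w k, ?_⟩
  rw [GrH_Lg hL hLs hΨ hw hk1, sub_add_cancel_left]
  refine SR_neg (SR_anti hL ?_ (SR_RgT hL hLs hΨ hw hk1))
  rw [Real.le_log_iff_exp_le hk0]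
  exact hk

end

section

variable {I : Type} [Fintype I] [DecidableEq I] {s : ℕ → I → ℕ} {B : I → Bool} {L : ℕ → ℝ}
  (hL : Tendsto L atTop atTop)
  (hLs : ∀ᶠ n in (UU : Filter ℕ), ∀ i, B i = true → L n ≤ (s n i : ℝ))
include hL hLs

lemma trunc_sumT {W : Type} [Fintype W] {w : W → List I} (hw : ∀ v, Lg B (w v))
    {f : W → ℕ → ℝ} {Ψ : ℝ} {b : ℕ} (hΨ : ∀ v m, 1 ≤ m → |f v m| ≤ Ψ * (m : ℝ) ^ b)
    {c : W → HR} {K : ℝ} (hK : ∀ v, c v ∈ SR L (-K))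
    (hn : Nul L (∑ v, c v * XgT s (f v) (w v)))
    {k : ℕ} (hk : 1 ≤ k) : ∑ v, c v * GrH s (f v) (w v) k ∈ SR L (Real.log k - K) := by
  have e1 : ∑ v, c v * GrH s (f v) (w v) k =
      ∑ v, c v * XgT s (f v) (w v) + ∑ v, c v * RgT s (f v) (w v) k := by
    rw [← Finset.sum_add_distrib]
    refine Finset.sum_congr rfl fun v _ => ?_
    rw [GrH_Lg hL hLs (hΨ v) (hw v) hk]
    ring
  rw [e1]
  refine SR_add hL (hn _) (SR_sum hL _ _ fun v _ => ?_)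
  have h1 := SR_mul hL (hK v) (SR_RgT hL hLs (hΨ v) (hw v) hk)
  refine SR_anti hL (le_of_eq ?_) h1
  ring

end

end Pool.Agent.Y760.ZF.RC
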