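import Pool.Agent.Y760.ZF.IndF

/-!
# Weighted multiple sums: the parts at one prime (helper78, after helper760)
-/

set_option autoImplicit false
set_option linter.unusedSectionVars false

namespace Pool.Agent.Y760.ZF.RC

open Filter Topology Pool.Agent.TH932.Abs Pool.Agent.TH932.Germs Pool.Agent.TH932.Chi
open Pool.Agent.TH796.AL Pool.Agent.Y760.ZG

variable {I : Type} [Fintype I] [DecidableEq I] (s : ℕ → I → ℕ) (x : I → ℝ) (ψ : ℕ → ℝ)

/-- a constant -/
noncomputable def cs (r : ℝ) : HR := algebraMap ℝ HR r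

lemma cs_eq (r : ℝ) : cs r = gr fun _ => r := rfl

lemma cs_mul (r r' : ℝ) : cs (r * r') = cs r * cs r' := by
  unfold cs
  rw [map_mul]

lemma cs_sum {ι : Type*} (t : Finset ι) (f : ι → ℝ) : cs (∑ i ∈ t, f i) = ∑ i ∈ t, cs (f i) := by
  unfold cs
  rw [map_sum]

lemma cs_one : cs 1 = 1 := by
  unfold cs
  rw [map_one]

lemma cs_zero : cs 0 = 0 := by
  unfold cs
  rw [map_zero]

/-- weighted truncated multiple sums -/
noncomputable def GrH : List I → ℕ → HR
  | [], _ => 1
  | a :: u, N => ∑ m ∈ Finset.Ico 1 N, cs (ψ m) * rho (lg s a m * Gq s u m)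

lemma GrH_nil (N : ℕ) : GrH s ψ ([] : List I) N = 1 := by rw [GrH]
lemma GrH_cons (a : I) (u : List I) (N : ℕ) :
    GrH s ψ (a :: u) N = ∑ m ∈ Finset.Ico 1 N, cs (ψ m) * rho (lg s a m * Gq s u m) := by rw [GrH]

open Classical in
/-- the part of the weight `z` at the prime `q` -/
noncomputable def GzH (q : ℕ) : List I → ℕ → ℝ → HR
  | [], _, z => if z = 0 then 1 else 0
  | a :: u, N, z => ∑ m ∈ Finset.Ico 1 N,
      cs (ψ m) * rho (lg s a m * Gz s x q u m (z - padicValNat (pr q) m * x a))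

open Classical in
lemma GzH_nil (q N : ℕ) (z : ℝ) :
    GzH s x ψ q ([] : List I) N z = if z = 0 then 1 else 0 := by rw [GzH]
lemma GzH_cons (q : ℕ) (a : I) (u : List I) (N : ℕ) (z : ℝ) :
    GzH s x ψ q (a :: u) N z = ∑ m ∈ Finset.Ico 1 N,
      cs (ψ m) * rho (lg s a m * Gz s x q u m (z - padicValNat (pr q) m * x a)) := by rw [GzH]

lemma GzH_notMem (q : ℕ) (u : List I) (N : ℕ) (z : ℝ) (hz : z ∉ Ys x q u N) :
    GzH s x ψ q u N z = 0 := by
  classical
  cases u with
  | nil =>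
    rw [Ys_nil, Finset.mem_singleton] at hz
    rw [GzH_nil, if_neg hz]
  | cons a u =>
    rw [Ys_cons] at hz
    rw [GzH_cons]
    refine Finset.sum_eq_zero fun m hm => ?_
    rw [Gz_notMem s x q u m, mul_zero, map_zero, mul_zero]
    intro h
    exact hz (Finset.mem_biUnion.2 ⟨m, hm, Finset.mem_image.2 ⟨_, h, by ring⟩⟩)

lemma GzH_sum (q : ℕ) (u : List I) (N : ℕ) (Y : Finset ℝ) (hY : Ys x q u N ⊆ Y) :
    ∑ z ∈ Y, GzH s x ψ q u N z = GrH s ψ u N := by
  classical
  cases u with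
  | nil =>
    rw [Ys_nil, Finset.singleton_subset_iff] at hY
    rw [GrH_nil, Finset.sum_eq_single_of_mem 0 hY]
    · rw [GzH_nil, if_pos rfl]
    · intro z _ hz
      rw [GzH_nil, if_neg hz]
  | cons a u =>
    rw [Ys_cons] at hY
    rw [GrH_cons]
    simp only [GzH_cons]
    rw [Finset.sum_comm]
    refine Finset.sum_congr rfl fun m hm => ?_
    rw [← Finset.mul_sum, ← map_sum, ← Finset.mul_sum]
    congr 3
    rw [← Gz_sum s x q u m (Y.image fun z => z - padicValNat (pr q) m * x a) ?_,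
      Finset.sum_image]
    · intro z _ z' _ h
      simpa using h
    · intro z hz
      refine Finset.mem_image.2 ⟨z + padicValNat (pr q) m * x a, ?_, by ring⟩
      exact hY (Finset.mem_biUnion.2 ⟨m, hm, Finset.mem_image.2 ⟨_, hz, rfl⟩⟩)

section

variable {s x} {L : ℕ → ℝ} {hL : Tendsto L atTop atTop} {F : IntermediateField ℚ ℝ}

lemma NQ_cs {q m : ℕ} {r : ℝ} (hr : r ∈ F) : NQ hL F q m (cs r) :=
  NQ.coe ⟨_, cst_mem_KA hL F ⟨r, hr⟩⟩

lemma SF_cs {r : ℝ} (hr : r ∈ F) : cs r ∈ SF hL F := SF_of_NQ (q := 0) (m := 0) (NQ_cs hr)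

variable {ψ}

lemma NQ_GzH (hψ : ∀ m, ψ m ∈ F) (hs : Lim s x L) {q M : ℕ} (hq : q < M) (u : List I) (N : ℕ)
    (z : ℝ) (hN : N ≤ M + 1) :
    NQ hL F q M (GzH s x ψ q u N z * rho (ch1 hL q (-z))⁻¹) := by
  classical
  cases u with
  | nil =>
    rw [GzH_nil]
    split_ifs with h
    · rw [h, neg_zero, ch1_zero, inv_one, map_one, mul_one]
      exact NQ.one
    · rw [zero_mul]
      exact NQ.zero
  | cons a u =>
    rw [GzH_cons, Finset.sum_mul]
    refine NQ.sum _ _ fun m hm => ?_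
    rw [Finset.mem_Ico] at hm
    have h1 : ch1 hL q (-z) = ch1 hL q (-(padicValNat (pr q) m * x a)) *
        ch1 hL q (-(z - padicValNat (pr q) m * x a)) := by
      rw [← ch1_add]
      congr 1
      ring
    rw [mul_assoc]
    refine (NQ_cs (hψ m)).mul ?_
    rw [← map_mul, ← div_eq_mul_inv, h1, mul_div_mul_comm, map_mul]
    exact (NQ_lg hs a hm.1 (by omega) hq).mul (NQ_Gz hs hq u m _ (by omega))

lemma SF_GrH (hψ : ∀ m, ψ m ∈ F) (hs : Lim s x L) (u : List I) (N : ℕ) :
    GrH s ψ u N ∈ SF hL F := by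
  classical
  cases u with
  | nil =>
    rw [GrH_nil]
    exact (SF hL F).one_mem
  | cons a u =>
    rw [GrH_cons]
    refine (SF hL F).sum_mem fun m hm => ?_
    rw [Finset.mem_Ico] at hm
    refine (SF hL F).mul_mem (SF_cs (hψ m)) ?_
    rw [map_mul]
    refine (SF hL F).mul_mem ?_ (SF_Gq hs u m)
    have h1 := SF_Gq (hL := hL) (F := F) hs [a] (m + 1)
    have h2 := SF_Gq (hL := hL) (F := F) hs [a] m
    have h3 : rho (lg s a m) = rho (Gq s [a] (m + 1)) - rho (Gq s [a] m) := by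
      rw [← map_sub, Gq_cons, Gq_cons, Finset.sum_Ico_succ_top hm.1, add_sub_cancel_left, Gq_nil,
        mul_one]
    rw [h3]
    exact (SF hL F).sub_mem h1 h2

/-- **the part of a small sum at one prime is small** -/
lemma partT (hF : FiniteDimensional ℚ F) (hs : Lim s x L) {W : Type} [Fintype W]
    (w : W → List I) {f : W → ℕ → ℝ} (hf : ∀ v m, f v m ∈ F) (c : W → HR) {q M N : ℕ}
    (hq : q < M) (hN : N ≤ M + 1) (hc : ∀ v, NQ hL F q M (c v)) {E : ℝ}
    (h : ∑ v, c v * GrH s (f v) (w v) N ∈ SR L E) (z : ℝ) :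
    ∑ v, c v * GzH s x (f v) q (w v) N z ∈ SR L E := by
  classical
  set Y : Finset ℝ := Finset.univ.biUnion fun v => Ys x q (w v) N with hY
  by_cases hz : z ∈ Y
  · set R : ℝ → HR := fun z => ∑ v, c v * (GzH s x (f v) q (w v) N z * rho (ch1 hL q (-z))⁻¹)
      with hR
    have hne : ∀ z, rho (ch1 hL q (-z)) ≠ 0 := fun z => (map_ne_zero rho).2 (ch1_ne hL q (-z))
    have h1 : ∀ z, rho (ch1 hL q (-z)) * R z = ∑ v, c v * GzH s x (f v) q (w v) N z := by
      intro z
      rw [hR]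
      simp only
      rw [Finset.mul_sum]
      refine Finset.sum_congr rfl fun v _ => ?_
      have h2 := hne z
      rw [map_inv₀]
      field_simp
    have h2 : ∑ z ∈ Y, rho (ch (bs M) hL (Pi.single ⟨q, hq⟩ (-z))) * R z ∈ SR L E := by
      have e1 : ∑ z ∈ Y, rho (ch (bs M) hL (Pi.single ⟨q, hq⟩ (-z))) * R z =
          ∑ v, c v * GrH s (f v) (w v) N := by
        have e2 : ∀ z ∈ Y, rho (ch (bs M) hL (Pi.single ⟨q, hq⟩ (-z))) * R z =
            ∑ v, c v * GzH s x (f v) q (w v) N z := by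
          intro z _
          rw [ch1_eq, h1]
        rw [Finset.sum_congr rfl e2, Finset.sum_comm]
        refine Finset.sum_congr rfl fun v _ => ?_
        rw [← Finset.mul_sum, GzH_sum s x (f v) q (w v) N Y
          (Finset.subset_biUnion_of_mem (fun v => Ys x q (w v) N) (Finset.mem_univ v))]
      rw [e1]
      exact h
    have h3 := split hF hq Y R (fun z _ => NQ.sum _ _ fun v _ => (hc v).mul
      (by
        have := NQ_GzH (hL := hL) (hf v) hs hq (w v) N z hN
        exact this)) h2 z hz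
    have h4 := SR_mul hL (ch1_mem (hL := hL) q z) h3
    rw [h1] at h4
    refine SR_anti hL (le_of_eq ?_) h4
    ring
  · have h1 : ∀ v, GzH s x (f v) q (w v) N z = 0 := fun v =>
      GzH_notMem s x (f v) q (w v) N z fun h2 =>
      hz (Finset.mem_biUnion.2 ⟨v, Finset.mem_univ v, h2⟩)
    simp only [h1, mul_zero, Finset.sum_const_zero]
    exact SR_zero _

end

end Pool.Agent.Y760.ZF.RC
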